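import Mathlib

/-!
# Automorphisms of alternating groups of degree at least 7

Every automorphism of `alternatingGroup α`, `7 ≤ card α`, is conjugation by a permutation.
-/

set_option autoImplicit false

open Equiv Equiv.Perm

namespace Helper76.IG

variable {α : Type} [Fintype α] [DecidableEq α]

/-- the cycle `a → b → c → a` -/
def cyc (a b c : α) : Perm α := swap a b * swap b c

omit [Fintype α] in
theorem cyc_fst {a b c : α} (hab : a ≠ b) (hac : a ≠ c) : cyc a b c a = b := by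
  unfold cyc
  rw [Perm.mul_apply, swap_apply_of_ne_of_ne hab hac, swap_apply_left]

omit [Fintype α] in
theorem cyc_snd {a b c : α} (hbc : b ≠ c) (hac : a ≠ c) : cyc a b c b = c := by
  unfold cyc
  rw [Perm.mul_apply, swap_apply_left, swap_apply_of_ne_of_ne hac.symm hbc.symm]

omit [Fintype α] in
theorem cyc_trd (a b c : α) : cyc a b c c = a := by
  unfold cyc
  rw [Perm.mul_apply, swap_apply_right, swap_apply_right]

omit [Fintype α] in
theorem cyc_of_ne {a b c x : α} (ha : x ≠ a) (hb : x ≠ b) (hc : x ≠ c) : cyc a b c x = x := by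
  unfold cyc
  rw [Perm.mul_apply, swap_apply_of_ne_of_ne hb hc, swap_apply_of_ne_of_ne ha hb]

omit [Fintype α] in
theorem conj_cyc (σ : Perm α) (a b c : α) : σ * cyc a b c * σ⁻¹ = cyc (σ a) (σ b) (σ c) := by
  unfold cyc
  rw [Equiv.swap_apply_apply, Equiv.swap_apply_apply]
  group

omit [Fintype α] in
theorem cyc_rot {a b c : α} (hab : a ≠ b) (hbc : b ≠ c) (hac : a ≠ c) :
    cyc a b c = cyc b c a := by
  ext x
  by_cases h1 : x = a
  · rw [h1, cyc_fst hab hac, cyc_trd]
  by_cases h2 : x = b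
  · rw [h2, cyc_snd hbc hac, cyc_fst hbc hab.symm]
  by_cases h3 : x = c
  · rw [h3, cyc_trd, cyc_snd hac.symm hab.symm]
  rw [cyc_of_ne h1 h2 h3, cyc_of_ne h2 h3 h1]

theorem cyc_three {a b c : α} (hab : a ≠ b) (hbc : b ≠ c) (hac : a ≠ c) :
    IsThreeCycle (cyc a b c) := by
  have h1 : cyc a b c = swap b a * swap b c := by
    unfold cyc
    rw [swap_comm]
  rw [h1]
  exact isThreeCycle_swap_mul_swap_same hab.symm hbc hac

/-- a three cycle as `cyc`, starting at a given point of its support -/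
theorem eq_cyc {g : Perm α} (h : IsThreeCycle g) {a : α} (ha : g a ≠ a) :
    a ≠ g a ∧ g a ≠ g (g a) ∧ a ≠ g (g a) ∧ g = cyc a (g a) (g (g a)) := by
  have h1 := (h.nodup_iff_mem_support (a := a)).2 (mem_support.2 ha)
  have h2 := (h.eq_swap_mul_swap_iff_mem_support (a := a)).2 (mem_support.2 ha)
  simp only [List.nodup_cons, List.mem_cons, List.not_mem_nil, or_false, not_or] at h1
  exact ⟨h1.1.1, h1.2.1, h1.1.2, h2⟩

theorem three_apply {g : Perm α} (h : IsThreeCycle g) (x : α) : g (g (g x)) = x := by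
  have h1 : g ^ 3 = 1 := by rw [← h.orderOf]; exact pow_orderOf_eq_one g
  have := Equiv.ext_iff.1 h1 x
  simpa [pow_succ] using this

theorem exists_moved {g : Perm α} (h : IsThreeCycle g) : ∃ a, g a ≠ a := by
  by_contra hcon
  push Not at hcon
  exact h.ne_one (Equiv.ext hcon)

/-- products of two three cycles have order 1, 2, 3 or 5 -/
theorem three_mul_three {s t : Perm α} (hs : IsThreeCycle s) (ht : IsThreeCycle t) :
    (s * t) ^ 2 = 1 ∨ (s * t) ^ 3 = 1 ∨ (s * t) ^ 5 = 1 := by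
  by_cases hd : Disjoint s.support t.support
  · have h1 : Commute s t := (Perm.disjoint_iff_disjoint_support.2 hd).commute
    right; left
    rw [h1.mul_pow]
    have h2 : s ^ 3 = 1 := by rw [← hs.orderOf]; exact pow_orderOf_eq_one s
    have h3 : t ^ 3 = 1 := by rw [← ht.orderOf]; exact pow_orderOf_eq_one t
    rw [h2, h3, one_mul]
  · have h1 : (s.support ∪ t.support).card ≤ 5 := by
      have h2 := Finset.card_union_add_card_inter s.support t.support
      have h3 : 0 < (s.support ∩ t.support).card := by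
        rw [Finset.card_pos]
        rw [Finset.disjoint_iff_inter_eq_empty] at hd
        exact Finset.nonempty_iff_ne_empty.2 hd
      rw [hs.card_support, ht.card_support] at h2
      omega
    have h2 : (s * t).support.card ≤ 5 := (Finset.card_le_card (support_mul_le s t)).trans h1
    have h3 : sign (s * t) = 1 := by rw [Perm.sign_mul, hs.sign, ht.sign, one_mul]
    set z := s * t with hz
    rw [← sum_cycleType] at h2
    rw [sign_of_cycleType] at h3
    have h4 : Even (z.cycleType.sum + z.cycleType.card) := by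
      by_contra hodd
      rw [Nat.not_even_iff_odd] at hodd
      rw [hodd.neg_one_pow] at h3
      exact absurd h3 (by decide)
    have h5 := fun k (hk : k ∈ z.cycleType) => two_le_of_mem_cycleType hk
    have hord : ∀ k, z.cycleType.lcm ∣ k → z ^ k = 1 := fun k hk => by
      rw [lcm_cycleType] at hk
      exact orderOf_dvd_iff_pow_eq_one.1 hk
    have h6 : z.cycleType.card * 2 ≤ z.cycleType.sum := by
      have := Multiset.card_nsmul_le_sum (s := z.cycleType) (a := 2) (fun k hk => h5 k hk)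
      simpa using this
    have hc : z.cycleType.card = 0 ∨ z.cycleType.card = 1 ∨ z.cycleType.card = 2 := by omega
    rcases hc with hc | hc | hc
    · left
      apply hord
      rw [Multiset.card_eq_zero.1 hc]
      simp
    · obtain ⟨m, hm⟩ := Multiset.card_eq_one.1 hc
      rw [hm] at h2 h4 h5
      simp only [Multiset.sum_singleton, Multiset.card_singleton] at h2 h4
      have h7 := h5 m (Multiset.mem_singleton_self m)
      have h8 : m = 3 ∨ m = 5 := by
        obtain ⟨k, hk⟩ := h4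
        omega
      rcases h8 with rfl | rfl
      · right; left
        apply hord
        rw [hm]; simp
      · right; right
        apply hord
        rw [hm]; simp
    · obtain ⟨m, k, hm⟩ := Multiset.card_eq_two.1 hc
      rw [hm] at h2 h4 h5
      have h7 := h5 m (by simp)
      have h8 := h5 k (by simp)
      simp only [Multiset.insert_eq_cons, Multiset.sum_cons, Multiset.sum_singleton,
        Multiset.card_cons, Multiset.card_singleton] at h2 h4
      have h9 : m = 2 ∧ k = 2 := by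
        obtain ⟨r, hr⟩ := h4
        omega
      left
      apply hord
      rw [hm, h9.1, h9.2]
      simp

/-- an element of order three that is not a three cycle has a conjugate (by an even permutation)
whose product with it has another order -/
theorem not_three {y : Perm α} (h7 : 7 ≤ Fintype.card α) (hy : y ^ 3 = 1) (hy1 : y ≠ 1)
    (hn : ¬ IsThreeCycle y) : ∃ c : Perm α, sign c = 1 ∧ (y * (c * y * c⁻¹)) ^ 2 ≠ 1 ∧
      (y * (c * y * c⁻¹)) ^ 3 ≠ 1 ∧ (y * (c * y * c⁻¹)) ^ 5 ≠ 1 := by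
  have hy3 : ∀ x, y (y (y x)) = x := fun x => by
    have := Equiv.ext_iff.1 hy x
    simpa [pow_succ] using this
  have hne2 : ∀ x, y x ≠ x → y (y x) ≠ x := by
    intro x hx h
    apply hx
    have := hy3 x
    rw [h] at this
    exact this
  obtain ⟨a1, ha1⟩ : ∃ a, y a ≠ a := by
    by_contra hcon
    push Not at hcon
    exact hy1 (Equiv.ext hcon)
  set a2 := y a1 with ha2
  set a3 := y a2 with ha3
  have ya3 : y a3 = a1 := hy3 a1
  have a12 : a1 ≠ a2 := ha1.symm
  have a23 : a2 ≠ a3 := fun h => a12 (y.injective h)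
  have a13 : a1 ≠ a3 := (hne2 a1 ha1).symm
  -- a second cycle
  obtain ⟨b1, hb1, b1a1, b1a2, b1a3⟩ : ∃ b, y b ≠ b ∧ b ≠ a1 ∧ b ≠ a2 ∧ b ≠ a3 := by
    by_contra hcon
    push Not at hcon
    apply hn
    have : y = cyc a1 a2 a3 := by
      ext x
      by_cases h1 : x = a1
      · rw [h1, cyc_fst a12 a13]
      by_cases h2 : x = a2
      · rw [h2, cyc_snd a23 a13]
      by_cases h3 : x = a3
      · rw [h3, cyc_trd, ya3]
      rw [cyc_of_ne h1 h2 h3]
      by_contra h4
      exact h3 (hcon x h4 h1 h2)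
    rw [this]
    exact cyc_three a12 a23 a13
  set b2 := y b1 with hb2
  set b3 := y b2 with hb3
  have yb3 : y b3 = b1 := hy3 b1
  have b12 : b1 ≠ b2 := hb1.symm
  have b23 : b2 ≠ b3 := fun h => b12 (y.injective h)
  have b13 : b1 ≠ b3 := (hne2 b1 hb1).symm
  have b2a1 : b2 ≠ a1 := fun h => b1a3 (y.injective (by rw [ya3]; exact h))
  have b2a2 : b2 ≠ a2 := fun h => b1a1 (y.injective h)
  have b2a3 : b2 ≠ a3 := fun h => b1a2 (y.injective h)
  have b3a1 : b3 ≠ a1 := fun h => b2a3 (y.injective (by rw [ya3]; exact h))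
  have b3a2 : b3 ≠ a2 := fun h => b2a1 (y.injective h)
  have b3a3 : b3 ≠ a3 := fun h => b2a2 (y.injective h)
  -- a seventh point
  obtain ⟨d, hd⟩ : ∃ d, d ∉ ({a1, a2, a3, b1, b2, b3} : Finset α) := by
    by_contra hcon
    push Not at hcon
    have h1 : (Finset.univ : Finset α) ⊆ {a1, a2, a3, b1, b2, b3} := fun x _ => hcon x
    have h2 := Finset.card_le_card h1
    have h3 : ({a1, a2, a3, b1, b2, b3} : Finset α).card ≤ 6 := Finset.card_le_six
    rw [Finset.card_univ] at h2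
    omega
  simp only [Finset.mem_insert, Finset.mem_singleton, not_or] at hd
  obtain ⟨da1, da2, da3, db1, db2, db3⟩ := hd
  by_cases hyd : y d = d
  · -- c = (a1 b1 d)
    refine ⟨cyc a1 b1 d, (cyc_three b1a1.symm (Ne.symm db1) (Ne.symm da1)).sign, ?_⟩
    have ci_a1 : (cyc a1 b1 d)⁻¹ a1 = d := by
      rw [Perm.inv_eq_iff_eq, cyc_trd]
    have ci_b1 : (cyc a1 b1 d)⁻¹ b1 = a1 := by
      rw [Perm.inv_eq_iff_eq, cyc_fst b1a1.symm (Ne.symm da1)]
    have ci_o : ∀ x, x ≠ a1 → x ≠ b1 → x ≠ d → (cyc a1 b1 d)⁻¹ x = x := fun x h1 h2 h3 => by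
      rw [Perm.inv_eq_iff_eq, cyc_of_ne h1 h2 h3]
    have c_o : ∀ x, x ≠ a1 → x ≠ b1 → x ≠ d → cyc a1 b1 d x = x := fun x h1 h2 h3 =>
      cyc_of_ne h1 h2 h3
    set c := cyc a1 b1 d with hc
    have cd : c d = a1 := cyc_trd _ _ _
    have z1 : (y * (c * y * c⁻¹)) a1 = a2 := by
      simp only [Perm.mul_apply]
      rw [ci_a1, hyd, cd]
    have z2 : (y * (c * y * c⁻¹)) a2 = a1 := by
      simp only [Perm.mul_apply]
      rw [ci_o a2 a12.symm b1a2.symm (Ne.symm da2), ← ha3, c_o a3 a13.symm b1a3.symm (Ne.symm da3),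
        ya3]
    have z3 : (y * (c * y * c⁻¹)) b1 = a3 := by
      simp only [Perm.mul_apply]
      rw [ci_b1, ← ha2, c_o a2 a12.symm b1a2.symm (Ne.symm da2)]
    have z4 : (y * (c * y * c⁻¹)) a3 = b2 := by
      simp only [Perm.mul_apply]
      rw [ci_o a3 a13.symm b1a3.symm (Ne.symm da3), ya3, hc, cyc_fst b1a1.symm (Ne.symm da1)]
    set z := y * (c * y * c⁻¹) with hz
    refine ⟨fun h => ?_, fun h => ?_, fun h => ?_⟩
    · have := Equiv.ext_iff.1 h b1
      simp only [pow_succ, pow_zero, one_mul, Perm.mul_apply, Perm.one_apply, z3, z4] at this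
      exact b12 this.symm
    · have := Equiv.ext_iff.1 h a1
      simp only [pow_succ, pow_zero, one_mul, Perm.mul_apply, Perm.one_apply, z1, z2] at this
      exact a12 this.symm
    · have := Equiv.ext_iff.1 h a1
      simp only [pow_succ, pow_zero, one_mul, Perm.mul_apply, Perm.one_apply, z1, z2] at this
      exact a12 this.symm
  · -- c = (a1 a2 b1)
    refine ⟨cyc a1 a2 b1, (cyc_three a12 b1a2.symm b1a1.symm).sign, ?_⟩
    have c_a1 : cyc a1 a2 b1 a1 = a2 := cyc_fst a12 b1a1.symm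
    have c_a2 : cyc a1 a2 b1 a2 = b1 := cyc_snd b1a2.symm b1a1.symm
    have c_b1 : cyc a1 a2 b1 b1 = a1 := cyc_trd _ _ _
    have c_o : ∀ x, x ≠ a1 → x ≠ a2 → x ≠ b1 → cyc a1 a2 b1 x = x := fun x h1 h2 h3 =>
      cyc_of_ne h1 h2 h3
    set c := cyc a1 a2 b1 with hc
    have ci_a1 : c⁻¹ a1 = b1 := by rw [Perm.inv_eq_iff_eq, c_b1]
    have ci_a2 : c⁻¹ a2 = a1 := by rw [Perm.inv_eq_iff_eq, c_a1]
    have ci_b1 : c⁻¹ b1 = a2 := by rw [Perm.inv_eq_iff_eq, c_a2]
    have ci_o : ∀ x, x ≠ a1 → x ≠ a2 → x ≠ b1 → c⁻¹ x = x := fun x h1 h2 h3 => by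
      rw [Perm.inv_eq_iff_eq, c_o x h1 h2 h3]
    have z1 : (y * (c * y * c⁻¹)) a2 = b2 := by
      simp only [Perm.mul_apply]
      rw [ci_a2, ← ha2, c_a2]
    have z2 : (y * (c * y * c⁻¹)) b2 = b1 := by
      simp only [Perm.mul_apply]
      rw [ci_o b2 b2a1 b2a2 b12.symm, ← hb3, c_o b3 b3a1 b3a2 b13.symm, yb3]
    have z3 : (y * (c * y * c⁻¹)) b1 = a1 := by
      simp only [Perm.mul_apply]
      rw [ci_b1, ← ha3, c_o a3 a13.symm a23.symm b1a3.symm, ya3]
    have d_out : ∀ e, e ≠ a1 → e ≠ a2 → e ≠ a3 → e ≠ b1 → e ≠ b2 → e ≠ b3 →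
        y e ≠ a1 ∧ y e ≠ a2 ∧ y e ≠ a3 ∧ y e ≠ b1 ∧ y e ≠ b2 ∧ y e ≠ b3 := by
      intro e h1 h2 h3 h4 h5 h6
      refine ⟨fun h => h3 (y.injective (by rw [ya3]; exact h)), fun h => h1 (y.injective h),
        fun h => h2 (y.injective h), fun h => h6 (y.injective (by rw [yb3]; exact h)),
        fun h => h4 (y.injective h), fun h => h5 (y.injective h)⟩
    have z_out : ∀ e, e ≠ a1 → e ≠ a2 → e ≠ a3 → e ≠ b1 → e ≠ b2 → e ≠ b3 →
        (y * (c * y * c⁻¹)) e = y (y e) := by
      intro e h1 h2 h3 h4 h5 h6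
      obtain ⟨k1, k2, k3, k4, k5, k6⟩ := d_out e h1 h2 h3 h4 h5 h6
      simp only [Perm.mul_apply]
      rw [ci_o e h1 h2 h4, c_o _ k1 k2 k4]
    set z := y * (c * y * c⁻¹) with hz
    refine ⟨fun h => ?_, fun h => ?_, fun h => ?_⟩
    · have := Equiv.ext_iff.1 h a2
      simp only [pow_succ, pow_zero, one_mul, Perm.mul_apply, Perm.one_apply, z1, z2] at this
      exact b1a2 this
    · have := Equiv.ext_iff.1 h a2
      simp only [pow_succ, pow_zero, one_mul, Perm.mul_apply, Perm.one_apply, z1, z2, z3] at this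
      exact a12 this
    · -- the third cycle
      have e1 := d_out d da1 da2 da3 db1 db2 db3
      have e2 := d_out (y d) e1.1 e1.2.1 e1.2.2.1 e1.2.2.2.1 e1.2.2.2.2.1 e1.2.2.2.2.2
      have w1 : z d = y (y d) := z_out d da1 da2 da3 db1 db2 db3
      have w2 : z (y (y d)) = y d := by
        rw [z_out _ e2.1 e2.2.1 e2.2.2.1 e2.2.2.2.1 e2.2.2.2.2.1 e2.2.2.2.2.2, hy3]
      have w3 : z (y d) = d := by
        rw [z_out _ e1.1 e1.2.1 e1.2.2.1 e1.2.2.2.1 e1.2.2.2.2.1 e1.2.2.2.2.2, hy3]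
      have := Equiv.ext_iff.1 h d
      simp only [pow_succ, pow_zero, one_mul, Perm.mul_apply, Perm.one_apply, w1, w2, w3] at this
      exact hyd this


/-! ### automorphisms preserve three cycles -/

theorem aut_three (h7 : 7 ≤ Fintype.card α) (φ : alternatingGroup α ≃* alternatingGroup α)
    (t : alternatingGroup α) (ht : IsThreeCycle (t : Perm α)) : IsThreeCycle (φ t : Perm α) := by
  by_contra hn
  have ht3 : t ^ 3 = 1 := by
    apply Subtype.ext
    have : (t : Perm α) ^ 3 = 1 := by rw [← ht.orderOf]; exact pow_orderOf_eq_one _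
    simpa using this
  have hy3 : ((φ t : alternatingGroup α) : Perm α) ^ 3 = 1 := by
    have : (φ t) ^ 3 = 1 := by rw [← map_pow, ht3, map_one]
    have h2 := congrArg (Subtype.val) this
    simpa using h2
  have hy1 : ((φ t : alternatingGroup α) : Perm α) ≠ 1 := by
    intro h
    have h2 : φ t = 1 := Subtype.ext h
    rw [map_eq_one_iff φ φ.injective] at h2
    exact ht.ne_one (by rw [h2]; rfl)
  obtain ⟨c, hc, k2, k3, k5⟩ := not_three h7 hy3 hy1 hn
  let c' : alternatingGroup α := ⟨c, mem_alternatingGroup.2 hc⟩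
  set g := φ.symm c' with hg
  have h1 : IsThreeCycle ((g * t * g⁻¹ : alternatingGroup α) : Perm α) := by
    have : ((g * t * g⁻¹ : alternatingGroup α) : Perm α) = (g : Perm α) * t * (g : Perm α)⁻¹ := rfl
    rw [this, IsThreeCycle, cycleType_conj]
    exact ht
  have key : ∀ k : ℕ, ((t : Perm α) * ((g * t * g⁻¹ : alternatingGroup α) : Perm α)) ^ k = 1 →
      (((φ t : alternatingGroup α) : Perm α) * (c * ((φ t : alternatingGroup α) : Perm α) * c⁻¹)) ^ k
        = 1 := by
    intro k hk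
    have e1 : (t * (g * t * g⁻¹)) ^ k = 1 := Subtype.ext hk
    have e2 : (φ t * (c' * φ t * c'⁻¹)) ^ k = 1 := by
      have e3 := congrArg φ e1
      rw [map_one, map_pow, map_mul, map_mul, map_mul, map_inv, hg, φ.apply_symm_apply] at e3
      exact e3
    exact congrArg Subtype.val e2
  rcases three_mul_three ht h1 with h | h | h
  · exact k2 (key 2 h)
  · exact k3 (key 3 h)
  · exact k5 (key 5 h)

/-! ### pairs of three cycles whose product is an involution -/

omit [Fintype α] in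
theorem compat_aux {x y z v w : α} (hxy : x ≠ y) (hyz : y ≠ z) (hxz : x ≠ z) (hxv : x ≠ v)
    (hvw : v ≠ w) (hxw : x ≠ w) (h2 : (cyc x y z * cyc x v w) ^ 2 = 1)
    (h1 : cyc x y z * cyc x v w ≠ 1) : y = v ∨ z = w := by
  by_contra hcon
  push Not at hcon
  obtain ⟨hyv, hzw⟩ := hcon
  have ev : ∀ e, cyc x y z (cyc x v w (cyc x y z (cyc x v w e))) = e := fun e => by
    have := Equiv.ext_iff.1 h2 e
    simpa [pow_succ] using this
  by_cases hvz : v = z
  · subst hvz
    by_cases hwy : w = y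
    · subst hwy
      apply h1
      ext e
      rw [Perm.mul_apply, Perm.one_apply]
      by_cases e1 : e = x
      · rw [e1, cyc_fst hxv hxw, cyc_trd]
      by_cases e2 : e = v
      · rw [e2, cyc_snd hvw hxw, cyc_snd hyz hxz]
      by_cases e3 : e = w
      · rw [e3, cyc_trd, cyc_fst hxy hxz]
      rw [cyc_of_ne e1 e2 e3, cyc_of_ne e1 e3 e2]
    · have h3 := ev w
      rw [cyc_trd, cyc_fst hxy hxz, cyc_of_ne hxy.symm hyz (Ne.symm hwy), cyc_snd hyz hxz] at h3
      exact hvw h3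
  · by_cases hwy : w = y
    · subst hwy
      have h3 := ev x
      rw [cyc_fst hxv hxw, cyc_of_ne hxv.symm hvw hvz, cyc_snd hvw hxw, cyc_snd hyz hxz] at h3
      exact hxz h3.symm
    · have h3 := ev x
      rw [cyc_fst hxv hxw, cyc_of_ne hxv.symm (Ne.symm hyv) hvz, cyc_snd hvw hxw,
        cyc_of_ne hxw.symm hwy (Ne.symm hzw)] at h3
      exact hxw h3.symm

theorem compat {s t : Perm α} (hs : IsThreeCycle s) (ht : IsThreeCycle t) (h2 : (s * t) ^ 2 = 1)
    (h1 : s * t ≠ 1) : ∃ x, s x ≠ x ∧ s x = t x := by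
  by_cases hd : Disjoint s.support t.support
  · exfalso
    have h3 : Commute s t := (Perm.disjoint_iff_disjoint_support.2 hd).commute
    apply h1
    have h4 : s ^ 3 = 1 := by rw [← hs.orderOf]; exact pow_orderOf_eq_one s
    have h5 : t ^ 3 = 1 := by rw [← ht.orderOf]; exact pow_orderOf_eq_one t
    have h6 : (s * t) ^ 3 = 1 := by rw [h3.mul_pow, h4, h5, one_mul]
    rw [pow_succ, h2, one_mul] at h6
    exact h6
  · obtain ⟨x, hx⟩ := Finset.not_disjoint_iff.1 hd
    have sx := mem_support.1 hx.1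
    have tx := mem_support.1 hx.2
    obtain ⟨a1, a2, a3, a4⟩ := eq_cyc hs sx
    obtain ⟨b1, b2, b3, b4⟩ := eq_cyc ht tx
    rw [a4, b4] at h2 h1
    rcases compat_aux a1 a2 a3 b1 b2 b3 h2 h1 with h | h
    · exact ⟨x, sx, h⟩
    · refine ⟨s (s x), ?_, ?_⟩
      · rw [Ne, s.injective.eq_iff]; exact fun h => a2 h.symm
      · rw [three_apply hs, h, three_apply ht]

/-! ### generation by the three cycles through two points -/

omit [Fintype α] in
theorem cyc_inv {a b c : α} (hab : a ≠ b) (hbc : b ≠ c) (hac : a ≠ c) :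
    (cyc a b c)⁻¹ = cyc b a c := by
  rw [inv_eq_iff_mul_eq_one]
  ext x
  rw [Perm.mul_apply, Perm.one_apply]
  by_cases h1 : x = a
  · rw [h1, cyc_snd hac hbc, cyc_trd]
  by_cases h2 : x = b
  · rw [h2, cyc_fst hab.symm hbc, cyc_fst hab hac]
  by_cases h3 : x = c
  · rw [h3, cyc_trd, cyc_snd hbc hac]
  rw [cyc_of_ne h2 h1 h3, cyc_of_ne h1 h2 h3]

omit [Fintype α] in
theorem gen_cyc (K : Subgroup (Perm α)) {p0 p1 : α} (h01 : p0 ≠ p1)
    (hK : ∀ k, k ≠ p0 → k ≠ p1 → cyc p0 p1 k ∈ K) {x y z : α} (hxy : x ≠ y) (hyz : y ≠ z)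
    (hxz : x ≠ z) : cyc x y z ∈ K := by
  have s1 : ∀ j k, j ≠ p0 → j ≠ p1 → k ≠ p0 → k ≠ p1 → j ≠ k → cyc p1 j k ∈ K := by
    intro j k j0 j1 k0 k1 hjk
    have h := K.mul_mem (K.mul_mem (hK j j0 j1) (hK k k0 k1)) (K.inv_mem (hK j j0 j1))
    rw [conj_cyc, cyc_fst h01 (Ne.symm j0), cyc_snd (Ne.symm j1) (Ne.symm j0),
      cyc_of_ne k0 k1 (Ne.symm hjk)] at h
    exact h
  have s2 : ∀ j k, j ≠ p0 → j ≠ p1 → k ≠ p0 → k ≠ p1 → j ≠ k → cyc p0 k j ∈ K := by
    intro j k j0 j1 k0 k1 hjk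
    have h := K.mul_mem (K.mul_mem (K.inv_mem (hK j j0 j1)) (hK k k0 k1)) (hK j j0 j1)
    have h2 : (cyc p0 p1 j)⁻¹ * cyc p0 p1 k * cyc p0 p1 j =
        (cyc p0 p1 j)⁻¹ * cyc p0 p1 k * ((cyc p0 p1 j)⁻¹)⁻¹ := by rw [inv_inv]
    rw [h2, conj_cyc, cyc_inv h01 (Ne.symm j1) (Ne.symm j0), cyc_snd (Ne.symm j0) (Ne.symm j1),
      cyc_fst h01.symm (Ne.symm j1), cyc_of_ne k1 k0 (Ne.symm hjk)] at h
    rw [cyc_rot (Ne.symm k0) (Ne.symm hjk) (Ne.symm j0), cyc_rot (Ne.symm hjk) j0 k0]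
    exact h
  have s3 : ∀ l j k, l ≠ p0 → l ≠ p1 → j ≠ p0 → j ≠ p1 → k ≠ p0 → k ≠ p1 → l ≠ j → j ≠ k → l ≠ k →
      cyc l j k ∈ K := by
    intro l j k l0 l1 j0 j1 k0 k1 hlj hjk hlk
    have h := K.mul_mem (K.mul_mem (hK l l0 l1) (s1 j k j0 j1 k0 k1 hjk)) (K.inv_mem (hK l l0 l1))
    rw [conj_cyc, cyc_snd (Ne.symm l1) (Ne.symm l0), cyc_of_ne j0 j1 (Ne.symm hlj),
      cyc_of_ne k0 k1 (Ne.symm hlk)] at h
    exact h
  have s4 : ∀ k, k ≠ p0 → k ≠ p1 → cyc p0 k p1 ∈ K := by
    intro k k0 k1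
    have h := K.inv_mem (hK k k0 k1)
    rw [cyc_inv h01 (Ne.symm k1) (Ne.symm k0), cyc_rot h01.symm (Ne.symm k0) (Ne.symm k1)] at h
    exact h
  -- first point is `p0`
  have f0 : ∀ y z, p0 ≠ y → y ≠ z → p0 ≠ z → cyc p0 y z ∈ K := by
    intro y z h1 h2 h3
    by_cases hy : y = p1
    · rw [hy]; exact hK z h3.symm (fun h => h2 (hy.trans h.symm))
    by_cases hz : z = p1
    · rw [hz]; exact s4 y h1.symm hy
    exact s2 z y h3.symm hz h1.symm hy h2.symm
  -- first point is `p1`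
  have f1 : ∀ y z, p1 ≠ y → y ≠ z → p1 ≠ z → cyc p1 y z ∈ K := by
    intro y z h1 h2 h3
    by_cases hy : y = p0
    · rw [cyc_rot h1 h2 h3, hy]
      exact f0 z p1 (by rw [← hy]; exact h2) h3.symm h01
    by_cases hz : z = p0
    · rw [hz, cyc_rot h1 (by rw [← hz]; exact h2) h01.symm, cyc_rot (by rw [← hz]; exact h2) h01
        h1.symm]
      exact f0 p1 y h01 h1 (Ne.symm hy)
    exact s1 y z hy h1.symm hz h3.symm h2
  by_cases x0 : x = p0
  · subst x0; exact f0 y z hxy hyz hxz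
  by_cases x1 : x = p1
  · subst x1; exact f1 y z hxy hyz hxz
  by_cases y0 : y = p0
  · rw [cyc_rot hxy hyz hxz]; subst y0; exact f0 z x hyz hxz.symm hxy.symm
  by_cases y1 : y = p1
  · rw [cyc_rot hxy hyz hxz]; subst y1; exact f1 z x hyz hxz.symm hxy.symm
  by_cases z0 : z = p0
  · rw [cyc_rot hxy hyz hxz, cyc_rot hyz hxz.symm hxy.symm]
    subst z0; exact f0 x y hxz.symm hxy hyz.symm
  by_cases z1 : z = p1
  · rw [cyc_rot hxy hyz hxz, cyc_rot hyz hxz.symm hxy.symm]
    subst z1; exact f1 x y hxz.symm hxy hyz.symm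
  exact s3 x y z x0 x1 y0 y1 z0 z1 hxy hyz hxz

theorem gen_alt (K : Subgroup (Perm α)) {p0 p1 : α} (h01 : p0 ≠ p1)
    (hK : ∀ k, k ≠ p0 → k ≠ p1 → cyc p0 p1 k ∈ K) : alternatingGroup α ≤ K := by
  rw [← closure_three_cycles_eq_alternating, Subgroup.closure_le]
  intro g hg
  obtain ⟨a, ha⟩ := exists_moved hg
  obtain ⟨h1, h2, h3, h4⟩ := eq_cyc hg ha
  rw [h4]
  exact gen_cyc K h01 hK h1 h2 h3

/-! ### the product of two three cycles through `p0 → p1` -/

omit [Fintype α] in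
theorem prod_inv {p0 p1 j k : α} (h01 : p0 ≠ p1) (j0 : j ≠ p0) (j1 : j ≠ p1) (k0 : k ≠ p0)
    (k1 : k ≠ p1) (hjk : j ≠ k) : (cyc p0 p1 j * cyc p0 p1 k) ^ 2 = 1 ∧
      cyc p0 p1 j * cyc p0 p1 k ≠ 1 := by
  have e0 : (cyc p0 p1 j * cyc p0 p1 k) p0 = j := by
    rw [Perm.mul_apply, cyc_fst h01 (Ne.symm k0), cyc_snd (Ne.symm j1) (Ne.symm j0)]
  have e1 : (cyc p0 p1 j * cyc p0 p1 k) j = p0 := by
    rw [Perm.mul_apply, cyc_of_ne j0 j1 hjk, cyc_trd]
  have e2 : (cyc p0 p1 j * cyc p0 p1 k) p1 = k := by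
    rw [Perm.mul_apply, cyc_snd (Ne.symm k1) (Ne.symm k0), cyc_of_ne k0 k1 (Ne.symm hjk)]
  have e3 : (cyc p0 p1 j * cyc p0 p1 k) k = p1 := by
    rw [Perm.mul_apply, cyc_trd, cyc_fst h01 (Ne.symm j0)]
  have e4 : ∀ x, x ≠ p0 → x ≠ p1 → x ≠ j → x ≠ k → (cyc p0 p1 j * cyc p0 p1 k) x = x := by
    intro x x0 x1 xj xk
    rw [Perm.mul_apply, cyc_of_ne x0 x1 xk, cyc_of_ne x0 x1 xj]
  constructor
  · ext x
    rw [pow_two, Perm.mul_apply, Perm.one_apply]
    by_cases x0 : x = p0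
    · rw [x0, e0, e1]
    by_cases x1 : x = p1
    · rw [x1, e2, e3]
    by_cases xj : x = j
    · rw [xj, e1, e0]
    by_cases xk : x = k
    · rw [xk, e3, e2]
    rw [e4 x x0 x1 xj xk, e4 x x0 x1 xj xk]
  · intro h
    rw [h, Perm.one_apply] at e0
    exact j0 e0.symm

/-! ### the main theorem on automorphisms -/

theorem aut_inner (h7 : 7 ≤ Fintype.card α) (φ : alternatingGroup α ≃* alternatingGroup α) :
    ∃ σ : Perm α, ∀ x : alternatingGroup α, ((φ x : alternatingGroup α) : Perm α) =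
      σ * x * σ⁻¹ := by
  classical
  obtain ⟨p0, p1, h01⟩ : ∃ p0 p1 : α, p0 ≠ p1 := by
    have : Nontrivial α := Fintype.one_lt_card_iff_nontrivial.1 (by omega)
    exact exists_pair_ne α
  let T : (k : α) → k ≠ p0 → k ≠ p1 → alternatingGroup α := fun k k0 k1 =>
    ⟨cyc p0 p1 k, mem_alternatingGroup.2 (cyc_three h01 (Ne.symm k1) (Ne.symm k0)).sign⟩
  -- the images
  let s : α → Perm α := fun k => if h : k ≠ p0 ∧ k ≠ p1 then
    ((φ (T k h.1 h.2) : alternatingGroup α) : Perm α) else 1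
  have sT : ∀ k (k0 : k ≠ p0) (k1 : k ≠ p1), s k = ((φ (T k k0 k1) : alternatingGroup α) : Perm α) :=
    fun k k0 k1 => dif_pos ⟨k0, k1⟩
  have s3 : ∀ k, k ≠ p0 → k ≠ p1 → IsThreeCycle (s k) := by
    intro k k0 k1
    rw [sT k k0 k1]
    exact aut_three h7 φ _ (cyc_three h01 (Ne.symm k1) (Ne.symm k0))
  have sinj : ∀ j k, j ≠ p0 → j ≠ p1 → k ≠ p0 → k ≠ p1 → s j = s k → j = k := by
    intro j k j0 j1 k0 k1 h
    rw [sT j j0 j1, sT k k0 k1] at h
    have h1 := φ.injective (Subtype.ext h)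
    have h2 : cyc p0 p1 j = cyc p0 p1 k := congrArg Subtype.val h1
    have h3 := Equiv.ext_iff.1 h2 p1
    rw [cyc_snd (Ne.symm j1) (Ne.symm j0), cyc_snd (Ne.symm k1) (Ne.symm k0)] at h3
    exact h3
  have scomp : ∀ j k, j ≠ p0 → j ≠ p1 → k ≠ p0 → k ≠ p1 → j ≠ k →
      ∃ x, s j x ≠ x ∧ s j x = s k x := by
    intro j k j0 j1 k0 k1 hjk
    obtain ⟨h1, h2⟩ := prod_inv h01 j0 j1 k0 k1 hjk
    have h3 : (T j j0 j1 * T k k0 k1) ^ 2 = 1 := Subtype.ext h1
    have h4 : T j j0 j1 * T k k0 k1 ≠ 1 := fun h => h2 (congrArg Subtype.val h)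
    apply compat (s3 j j0 j1) (s3 k k0 k1)
    · rw [sT j j0 j1, sT k k0 k1]
      have h5 := congrArg φ h3
      rw [map_one, map_pow, map_mul] at h5
      exact congrArg Subtype.val h5
    · rw [sT j j0 j1, sT k k0 k1]
      intro h5
      apply h4
      have h6 : φ (T j j0 j1) * φ (T k k0 k1) = 1 := Subtype.ext h5
      rw [← map_mul] at h6
      exact (map_eq_one_iff φ φ.injective).1 h6
  -- two more points
  have hcard : ∀ F : Finset α, F.card ≤ 6 → ∃ x, x ∉ F := by
    intro F hF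
    by_contra hcon
    push Not at hcon
    have h1 : (Finset.univ : Finset α) ⊆ F := fun x _ => hcon x
    have h2 := Finset.card_le_card h1
    rw [Finset.card_univ] at h2
    omega
  obtain ⟨k2, hk2⟩ := hcard {p0, p1} (Finset.card_le_two.trans (by norm_num))
  simp only [Finset.mem_insert, Finset.mem_singleton, not_or] at hk2
  obtain ⟨k3, hk3⟩ := hcard {p0, p1, k2} (Finset.card_le_three.trans (by norm_num))
  simp only [Finset.mem_insert, Finset.mem_singleton, not_or] at hk3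
  obtain ⟨k20, k21⟩ := hk2
  obtain ⟨k30, k31, k32⟩ := hk3
  obtain ⟨a, ha, hab3⟩ := scomp k2 k3 k20 k21 k30 k31 (Ne.symm k32)
  set b := s k2 a with hb
  have hba : b ≠ a := ha
  obtain ⟨u1, u2, u3, u4⟩ := eq_cyc (s3 k2 k20 k21) ha
  rw [← hb] at u1 u2 u3 u4
  obtain ⟨w1, w2, w3, w4⟩ := eq_cyc (s3 k3 k30 k31) (a := a) (by rw [← hab3]; exact ha)
  rw [← hab3] at w1 w2 w3 w4
  set c := s k2 b with hc
  set d := s k3 b with hd
  have hcd : c ≠ d := by
    intro h
    apply k32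
    apply sinj k3 k2 k30 k31 k20 k21
    rw [u4, w4, h]
  have sk2 : ∀ x, s k2 x ≠ x → x = a ∨ x = b ∨ x = c := by
    intro x hx
    by_contra hcon
    push Not at hcon
    apply hx
    rw [u4, cyc_of_ne hcon.1 hcon.2.1 hcon.2.2]
  have sk3 : ∀ x, s k3 x ≠ x → x = a ∨ x = b ∨ x = d := by
    intro x hx
    by_contra hcon
    push Not at hcon
    apply hx
    rw [w4, cyc_of_ne hcon.1 hcon.2.1 hcon.2.2]
  have s2c : s k2 c = a := by rw [u4, cyc_trd]
  have s3d : s k3 d = a := by rw [w4, cyc_trd]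
  have key : ∀ k, k ≠ p0 → k ≠ p1 → s k a = b := by
    intro k k0 k1
    by_cases e2 : k = k2
    · rw [e2]
    by_cases e3 : k = k3
    · rw [e3, ← hab3]
    obtain ⟨x, hx, hx2⟩ := scomp k k2 k0 k1 k20 k21 e2
    obtain ⟨y, hy, hy3⟩ := scomp k k3 k0 k1 k30 k31 e3
    have hx' := sk2 x (by rw [← hx2]; exact hx)
    have hy' := sk3 y (by rw [← hy3]; exact hy)
    have h3 := three_apply (s3 k k0 k1)
    rcases hx' with rfl | rfl | rfl
    · exact hx2
    · rcases hy' with rfl | rfl | rfl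
      · rw [hy3, ← hab3]
      · exfalso
        apply hcd
        rw [hc, hd, ← hx2, ← hy3]
      · exfalso
        -- s k b = c, s k d = a
        obtain ⟨v1, v2, v3, v4⟩ := eq_cyc (s3 k k0 k1) hx
        have e1 : s k b = c := hx2
        have e4 : s k d = a := hy3.trans s3d
        by_cases e5 : d = s k (s k b)
        · have e6 : s k d = b := by rw [e5, h3]
          exact hba (e6.symm.trans e4)
        · apply hy
          rw [v4, cyc_of_ne w2.symm (by rw [e1]; exact hcd.symm) e5]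
    · rcases hy' with rfl | rfl | rfl
      · rw [hy3, ← hab3]
      · -- s k c = a, s k b = d
        obtain ⟨v1, v2, v3, v4⟩ := eq_cyc (s3 k k0 k1) hx
        have e1 : s k c = a := hx2.trans s2c
        by_cases e5 : b = s k (s k c)
        · rw [e1] at e5
          exact e5.symm
        · exfalso
          apply hy
          rw [v4, cyc_of_ne u2 (by rw [e1]; exact hba) e5]
      · exfalso
        apply hcd
        apply (s k).injective
        rw [hx2, s2c, hy3, s3d]
  -- the permutation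
  have hsk : ∀ k, k ≠ p0 → k ≠ p1 → a ≠ s k b ∧ b ≠ s k b ∧ s k = cyc a b (s k b) := by
    intro k k0 k1
    have h1 := key k k0 k1
    obtain ⟨v1, v2, v3, v4⟩ := eq_cyc (s3 k k0 k1) (a := a) (by rw [h1]; exact hba)
    rw [h1] at v1 v2 v3 v4
    exact ⟨v3, v2, v4⟩
  let f : α → α := fun k => if k = p0 then a else if k = p1 then b else s k b
  have f0 : f p0 = a := if_pos rfl
  have f1 : f p1 = b := by
    change (if p1 = p0 then a else if p1 = p1 then b else s p1 b) = b
    rw [if_neg h01.symm, if_pos rfl]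
  have fk : ∀ k, k ≠ p0 → k ≠ p1 → f k = s k b := by
    intro k k0 k1
    change (if k = p0 then a else if k = p1 then b else s k b) = s k b
    rw [if_neg k0, if_neg k1]
  have hf : Function.Injective f := by
    intro j k h
    by_cases j0 : j = p0
    · by_cases k0 : k = p0
      · rw [j0, k0]
      by_cases k1 : k = p1
      · rw [j0, k1, f0, f1] at h; exact absurd h hba.symm
      rw [j0, f0, fk k k0 k1] at h; exact absurd h (hsk k k0 k1).1
    by_cases j1 : j = p1
    · by_cases k0 : k = p0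
      · rw [j1, k0, f0, f1] at h; exact absurd h hba
      by_cases k1 : k = p1
      · rw [j1, k1]
      rw [j1, f1, fk k k0 k1] at h; exact absurd h (hsk k k0 k1).2.1
    by_cases k0 : k = p0
    · rw [k0, f0, fk j j0 j1] at h; exact absurd h.symm (hsk j j0 j1).1
    by_cases k1 : k = p1
    · rw [k1, f1, fk j j0 j1] at h; exact absurd h.symm (hsk j j0 j1).2.1
    rw [fk j j0 j1, fk k k0 k1] at h
    apply sinj j k j0 j1 k0 k1
    rw [(hsk j j0 j1).2.2, (hsk k k0 k1).2.2, h]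
  let σ : Perm α := Equiv.ofBijective f (Finite.injective_iff_bijective.1 hf)
  refine ⟨σ, ?_⟩
  -- the locus where the two maps agree
  let F1 : alternatingGroup α →* Perm α := (alternatingGroup α).subtype.comp φ.toMonoidHom
  let F2 : alternatingGroup α →* Perm α :=
    (MulAut.conj σ).toMonoidHom.comp (alternatingGroup α).subtype
  let Lc : Subgroup (alternatingGroup α) := MonoidHom.eqLocus F1 F2
  have hK : alternatingGroup α ≤ Lc.map (alternatingGroup α).subtype := by
    apply gen_alt _ h01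
    intro k k0 k1
    refine ⟨T k k0 k1, ?_, rfl⟩
    change F1 (T k k0 k1) = F2 (T k k0 k1)
    change ((φ (T k k0 k1) : alternatingGroup α) : Perm α) = σ * cyc p0 p1 k * σ⁻¹
    rw [conj_cyc]
    change _ = cyc (f p0) (f p1) (f k)
    rw [f0, f1, fk k k0 k1, ← (hsk k k0 k1).2.2, sT k k0 k1]
  intro x
  obtain ⟨y, hy, hyx⟩ := hK x.2
  have hxy : y = x := Subtype.ext hyx
  subst hxy
  exact hy

/-- a permutation is determined by its conjugation action on the alternating group -/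
theorem conj_unique (h7 : 7 ≤ Fintype.card α) {σ τ : Perm α}
    (h : ∀ x : alternatingGroup α, σ * (x : Perm α) * σ⁻¹ = τ * x * τ⁻¹) : σ = τ := by
  classical
  by_contra hne
  obtain ⟨x, hx⟩ : ∃ x, τ⁻¹ (σ x) ≠ x := by
    by_contra hcon
    push Not at hcon
    apply hne
    ext x
    have := hcon x
    rw [Perm.inv_eq_iff_eq] at this
    exact this
  set r := τ⁻¹ (σ x) with hr
  -- a three cycle moving `x` but not `r`
  obtain ⟨y, hy⟩ : ∃ y, y ∉ ({x, r} : Finset α) := by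
    by_contra hcon
    push Not at hcon
    have h1 : (Finset.univ : Finset α) ⊆ {x, r} := fun x _ => hcon x
    have h2 := (Finset.card_le_card h1).trans Finset.card_le_two
    rw [Finset.card_univ] at h2
    omega
  obtain ⟨z, hz⟩ : ∃ z, z ∉ ({x, r, y} : Finset α) := by
    by_contra hcon
    push Not at hcon
    have h1 : (Finset.univ : Finset α) ⊆ {x, r, y} := fun x _ => hcon x
    have h2 := (Finset.card_le_card h1).trans Finset.card_le_three
    rw [Finset.card_univ] at h2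
    omega
  simp only [Finset.mem_insert, Finset.mem_singleton, not_or] at hy hz
  obtain ⟨y1, y2⟩ := hy
  obtain ⟨z1, z2, z3⟩ := hz
  have h1 := h ⟨cyc x y z, mem_alternatingGroup.2 (cyc_three (Ne.symm y1) (Ne.symm z3)
    (Ne.symm z1)).sign⟩
  have h2 : σ * cyc x y z * σ⁻¹ = τ * cyc x y z * τ⁻¹ := h1
  have h3 := Equiv.ext_iff.1 h2 (σ x)
  simp only [Perm.mul_apply] at h3
  have h5 : σ⁻¹ (σ x) = x := by rw [Perm.inv_eq_iff_eq]
  rw [h5] at h3
  rw [cyc_fst (Ne.symm y1) (Ne.symm z1)] at h3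
  change σ y = τ (cyc x y z r) at h3
  rw [cyc_of_ne hx (Ne.symm y2) (Ne.symm z2)] at h3
  have h4 : τ r = σ x := (Perm.inv_eq_iff_eq.1 hr.symm).symm
  rw [h4] at h3
  exact y1 (σ.injective h3)

end Helper76.IG
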