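import Pool.Agent.Helper76.IG.Defs
import Pool.Agent.Helper76.IG.Alt

/-!
# Alternating normal subgroups of invariably generated groups
-/

set_option autoImplicit false

open Equiv Equiv.Perm

namespace Helper76.IG

/-! ### invariant subsets -/

section Inv

variable {α : Type} [Fintype α] [DecidableEq α]

/-- a permutation of prime order dividing `p` has an invariant subset of every cardinality
divisible by `p` -/
theorem exists_inv (σ : Perm α) {p : ℕ} (hp : p.Prime) (hσ : σ ^ p = 1) (k : ℕ)
    (hk : p * k ≤ Fintype.card α) : ∃ B : Finset α, B.card = p * k ∧ ∀ x, x ∈ B → σ x ∈ B := by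
  induction k with
  | zero => exact ⟨∅, by simp, by simp⟩
  | succ k ih =>
    obtain ⟨B, hB, hinv⟩ := ih (by nlinarith [hp.pos])
    have hfin : ∀ x, x ∉ B → σ x ∉ B := by
      -- the invariant set is mapped onto itself
      have h1 : B.image σ = B := by
        apply Finset.eq_of_subset_of_card_le
        · intro y hy
          obtain ⟨x, hx, rfl⟩ := Finset.mem_image.1 hy
          exact hinv x hx
        · rw [Finset.card_image_of_injective _ σ.injective]
      intro x hx hy
      rw [← h1] at hy
      obtain ⟨z, hz, hzx⟩ := Finset.mem_image.1 hy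
      rw [σ.injective hzx] at hz
      exact hx hz
    have hcard : p ≤ (Bᶜ).card := by
      rw [Finset.card_compl, hB]
      have : p * (k + 1) = p * k + p := by ring
      omega
    by_cases hmv : ∃ x ∈ Bᶜ, σ x ≠ x
    · obtain ⟨x, hx, hxm⟩ := hmv
      rw [Finset.mem_compl] at hx
      -- the orbit of `x`
      have hper : Function.IsPeriodicPt σ p x := by
        have := Equiv.ext_iff.1 hσ x
        rw [Perm.one_apply, ← Perm.iterate_eq_pow] at this
        exact this
      have hmin : Function.minimalPeriod σ x = p := by
        have hd := hper.minimalPeriod_dvd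
        rcases (Nat.dvd_prime hp).1 hd with h | h
        · exfalso
          apply hxm
          have := Function.isPeriodicPt_minimalPeriod σ x
          rw [h] at this
          exact this
        · exact h
      have hinj : Set.InjOn (fun i => (⇑σ)^[i] x) (Finset.range p : Set ℕ) := by
        intro i hi j hj hij
        rw [Finset.coe_range, Set.mem_Iio] at hi hj
        have := Function.iterate_injOn_Iio_minimalPeriod (f := σ) (x := x)
        rw [hmin] at this
        exact this hi hj hij
      let O : Finset α := (Finset.range p).image (fun i => (⇑σ)^[i] x)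
      have hO : O.card = p := by
        rw [Finset.card_image_of_injOn hinj, Finset.card_range]
      have hout : ∀ i, (⇑σ)^[i] x ∉ B := by
        intro i
        induction i with
        | zero => exact hx
        | succ i ih => rw [Function.iterate_succ_apply']; exact hfin _ ih
      have hdisj : Disjoint B O := by
        rw [Finset.disjoint_left]
        intro y hy hyO
        obtain ⟨i, _, rfl⟩ := Finset.mem_image.1 hyO
        exact hout i hy
      refine ⟨B ∪ O, ?_, ?_⟩
      · rw [Finset.card_union_of_disjoint hdisj, hB, hO]; ring
      · intro y hy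
        rcases Finset.mem_union.1 hy with hy | hy
        · exact Finset.mem_union_left _ (hinv y hy)
        · apply Finset.mem_union_right
          obtain ⟨i, hi, rfl⟩ := Finset.mem_image.1 hy
          rw [Finset.mem_range] at hi
          rw [← Function.iterate_succ_apply' σ i x]
          by_cases hi2 : i + 1 < p
          · exact Finset.mem_image.2 ⟨i + 1, Finset.mem_range.2 hi2, rfl⟩
          · have : i + 1 = p := by omega
            rw [Nat.succ_eq_add_one, this]
            exact Finset.mem_image.2 ⟨0, Finset.mem_range.2 hp.pos, hper.symm⟩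
    · push Not at hmv
      obtain ⟨O, hO, hOc⟩ := Finset.exists_subset_card_eq hcard
      have hdisj : Disjoint B O := by
        rw [Finset.disjoint_left]
        intro y hy hyO
        exact (Finset.mem_compl.1 (hO hyO)) hy
      refine ⟨B ∪ O, ?_, ?_⟩
      · rw [Finset.card_union_of_disjoint hdisj, hB, hOc]; ring
      · intro y hy
        rcases Finset.mem_union.1 hy with hy | hy
        · exact Finset.mem_union_left _ (hinv y hy)
        · apply Finset.mem_union_right
          rw [hmv y (hO hy)]
          exact hy

end Inv

section Hom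

variable {α : Type} [Fintype α] [DecidableEq α] {G : Type} [Group G] {N : Subgroup G} [N.Normal]

/-- the automorphism of `alternatingGroup α` given by conjugation with `g` -/
noncomputable def conjAut (e : N ≃* alternatingGroup α) (g : G) :
    alternatingGroup α ≃* alternatingGroup α :=
  (e.symm.trans (MulAut.conjNormal g)).trans e

/-- the action on points -/
noncomputable def actFun (h7 : 7 ≤ Fintype.card α) (e : N ≃* alternatingGroup α) (g : G) :
    Perm α := (aut_inner h7 (conjAut e g)).choose

theorem actFun_spec (h7 : 7 ≤ Fintype.card α) (e : N ≃* alternatingGroup α) (g : G) (x : N) :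
    ((e (MulAut.conjNormal g x) : alternatingGroup α) : Perm α) =
      actFun h7 e g * (e x : Perm α) * (actFun h7 e g)⁻¹ := by
  have h1 := (aut_inner h7 (conjAut e g)).choose_spec (e x)
  have h2 : conjAut e g (e x) = e (MulAut.conjNormal g x) := by
    unfold conjAut
    rw [MulEquiv.trans_apply, MulEquiv.trans_apply, MulEquiv.symm_apply_apply]
  rw [h2] at h1
  exact h1

noncomputable def actHom (h7 : 7 ≤ Fintype.card α) (e : N ≃* alternatingGroup α) :
    G →* Perm α where
  toFun := actFun h7 e
  map_one' := by
    apply conj_unique h7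
    intro x
    obtain ⟨x, rfl⟩ := e.surjective x
    rw [← actFun_spec h7, map_one]
    simp
  map_mul' g k := by
    apply conj_unique h7
    intro x
    obtain ⟨x, rfl⟩ := e.surjective x
    rw [← actFun_spec h7, map_mul, MulAut.mul_apply, actFun_spec h7, actFun_spec h7]
    group

theorem actHom_coe (h7 : 7 ≤ Fintype.card α) (e : N ≃* alternatingGroup α) (x : N) :
    actHom h7 e (x : G) = (e x : Perm α) := by
  apply conj_unique h7
  intro y
  obtain ⟨y, rfl⟩ := e.surjective y
  change actFun h7 e x * _ * (actFun h7 e x)⁻¹ = _
  rw [← actFun_spec h7]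
  have h1 : MulAut.conjNormal (x : G) y = x * y * x⁻¹ := by
    apply Subtype.ext
    rw [MulAut.conjNormal_apply]
    rfl
  rw [h1, map_mul, map_mul, map_inv]
  rfl

/-- an invariably generated group has no normal subgroup isomorphic to an alternating group of
degree larger than `p q` -/
theorem no_alt {p q : ℕ} (hp : p.Prime) (hq : q.Prime) (hpq : p ≠ q) {a b : G}
    (ha : orderOf a = p) (hb : orderOf b = q) (hab : InvGen a b)
    (hcard : p * q < Fintype.card α) (e : N ≃* alternatingGroup α) : False := by
  classical
  have h6 : 6 ≤ p * q := by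
    rcases Nat.lt_or_gt_of_ne hpq with h | h
    · have := hp.two_le
      have : 3 ≤ q := by omega
      nlinarith
    · have := hq.two_le
      have : 3 ≤ p := by omega
      nlinarith
  have h7 : 7 ≤ Fintype.card α := by omega
  set Φ := actHom h7 e with hΦ
  have h1 : Φ a ^ p = 1 := by rw [← map_pow, ← ha, pow_orderOf_eq_one, map_one]
  have h2 : Φ b ^ q = 1 := by rw [← map_pow, ← hb, pow_orderOf_eq_one, map_one]
  obtain ⟨B, hB, hBa⟩ := exists_inv (Φ a) hp h1 q hcard.le
  obtain ⟨B', hB', hBb⟩ := exists_inv (Φ b) hq h2 p (by rw [mul_comm]; exact hcard.le)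
  have hsmul : ∀ (σ : Perm α) (C : Finset α), (∀ x, x ∈ C → σ x ∈ C) → C.image σ = C := by
    intro σ C hC
    apply Finset.eq_of_subset_of_card_le
    · intro y hy
      obtain ⟨x, hx, rfl⟩ := Finset.mem_image.1 hy
      exact hC x hx
    · rw [Finset.card_image_of_injective _ σ.injective]
  -- transitivity of the alternating group on subsets
  have htr : ∀ C C' : Finset α, C.card = p * q → C'.card = p * q →
      ∃ π : alternatingGroup α, C'.image (π : Perm α) = C := by
    intro C C' hC hC'
    have := Set.powersetCard.isPretransitive_alternatingGroup (α := α) (n := p * q)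
      (by rw [Nat.card_eq_fintype_card]; omega)
    obtain ⟨π, hπ⟩ := this.exists_smul_eq ⟨C', hC'⟩ ⟨C, hC⟩
    refine ⟨π, ?_⟩
    exact congrArg Subtype.val hπ
  obtain ⟨π, hπ⟩ := htr B B' hB (by rw [hB', mul_comm])
  -- the stabilizer of `B`
  let M0 : Subgroup (Perm α) :=
    { carrier := {σ | B.image σ = B}
      mul_mem' := by
        intro σ τ hσ hτ
        change B.image (σ * τ) = B
        have : B.image (⇑(σ * τ)) = (B.image τ).image σ := by
          rw [Finset.image_image]; rfl
        rw [this, hτ, hσ]
      one_mem' := by
        change B.image (⇑(1 : Perm α)) = B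
        simp
      inv_mem' := by
        intro σ hσ
        change B.image (⇑σ⁻¹) = B
        have h3 : (B.image σ).image (⇑σ⁻¹) = B := by
          rw [Finset.image_image]
          have : (⇑σ⁻¹ ∘ ⇑σ) = id := by
            ext x
            change σ⁻¹ (σ x) = x
            rw [Perm.inv_eq_iff_eq]
          rw [this, Finset.image_id]
        have h4 : B.image σ = B := hσ
        rw [h4] at h3
        exact h3 }
  have hM : M0.comap Φ = ⊤ := by
    obtain ⟨x, hx⟩ := e.surjective π
    apply hab.eq_top (g := 1) (k := (x : G)⁻¹)
    · rw [inv_one, one_mul, mul_one]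
      exact hsmul _ _ hBa
    · rw [inv_inv]
      change B.image (⇑(Φ (x * b * (x : G)⁻¹))) = B
      rw [map_mul, map_mul, map_inv, hΦ, actHom_coe, hx, ← hΦ]
      have h3 : B.image (⇑((π : Perm α)⁻¹)) = B' := by
        rw [← hπ, Finset.image_image]
        have : (⇑((π : Perm α)⁻¹) ∘ ⇑(π : Perm α)) = id := by
          ext x
          change (π : Perm α)⁻¹ ((π : Perm α) x) = x
          rw [Perm.inv_eq_iff_eq]
        rw [this, Finset.image_id]
      have h4 : B.image (⇑((π : Perm α) * Φ b * (π : Perm α)⁻¹)) =
          ((B.image (⇑((π : Perm α)⁻¹))).image (Φ b)).image (π : Perm α) := by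
        rw [Finset.image_image, Finset.image_image]; rfl
      rw [h4, h3, hsmul _ _ hBb, hπ]
  -- another subset
  have hBne : B.Nonempty := by rw [← Finset.card_pos, hB]; exact Nat.mul_pos hp.pos hq.pos
  obtain ⟨i, hi⟩ := hBne
  obtain ⟨j, hj⟩ : ∃ j, j ∉ B := by
    by_contra hcon
    push Not at hcon
    have h1 : (Finset.univ : Finset α) ⊆ B := fun x _ => hcon x
    have h2 := Finset.card_le_card h1
    rw [Finset.card_univ, hB] at h2
    omega
  obtain ⟨ρ, hρ⟩ := htr (insert j (B.erase i)) B (by
    rw [Finset.card_insert_of_notMem (fun h => hj (Finset.mem_of_mem_erase h)),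
      Finset.card_erase_of_mem hi, hB]
    have : 0 < p * q := Nat.mul_pos hp.pos hq.pos
    omega) hB
  obtain ⟨y, hy⟩ := e.surjective ρ
  have h3 : (y : G) ∈ M0.comap Φ := by rw [hM]; exact Subgroup.mem_top _
  have h4 : B.image (⇑(Φ (y : G))) = B := h3
  rw [hΦ, actHom_coe, hy, hρ] at h4
  apply hj
  rw [← h4]
  exact Finset.mem_insert_self _ _

end Hom

end Helper76.IG
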