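import Mathlib

/-!
# Invariable generation by an element of order `p` and an element of order `q`
-/

set_option autoImplicit false

namespace Helper76.IG

/-- `a` and `b` invariably generate `G`: for all `g`, `h` in `G` the conjugates `g⁻¹ a g` and
`h⁻¹ b h` generate `G`. -/
def InvGen {G : Type} [Group G] (a b : G) : Prop :=
  ∀ g h : G, Subgroup.closure {g⁻¹ * a * g, h⁻¹ * b * h} = ⊤

/-- `G` is invariably generated by an element of order `p` and an element of order `q`. -/
def IsIG (p q : ℕ) (G : Type) [Group G] : Prop :=
  ∃ a b : G, orderOf a = p ∧ orderOf b = q ∧ InvGen a b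

/-- `H` embeds in `G`. -/
def Embeds (H G : Type) [Group H] [Group G] : Prop :=
  ∃ f : H →* G, Function.Injective f

variable {G : Type} [Group G]

/-- a subgroup that contains a conjugate of `a` and a conjugate of `b` is everything -/
theorem InvGen.eq_top {a b : G} (h : InvGen a b) {M : Subgroup G} {g k : G}
    (ha : g⁻¹ * a * g ∈ M) (hb : k⁻¹ * b * k ∈ M) : M = ⊤ := by
  rw [eq_top_iff, ← h g k, Subgroup.closure_le]
  intro x hx
  rcases hx with rfl | hx
  · exact ha
  · rw [Set.mem_singleton_iff.1 hx]
    exact hb

theorem InvGen.symm {a b : G} (h : InvGen a b) : InvGen b a := by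
  intro g k
  rw [Set.pair_comm]
  exact h k g

theorem InvGen.map {a b : G} (h : InvGen a b) {K : Type} [Group K] (f : G →* K)
    (hf : Function.Surjective f) : InvGen (f a) (f b) := by
  intro g k
  obtain ⟨g, rfl⟩ := hf g
  obtain ⟨k, rfl⟩ := hf k
  have h1 := congrArg (Subgroup.map f) (h g k)
  rw [MonoidHom.map_closure, ← MonoidHom.range_eq_map, MonoidHom.range_eq_top.2 hf] at h1
  rw [← h1, Set.image_pair, map_mul, map_mul, map_inv, map_mul, map_mul, map_inv]

end Helper76.IG
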