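import Pool.Agent.Helper76.IG.Simple
import Pool.Agent.Helper76.IG.AltIG

/-!
# Reduction of the embedding question to almost simple groups
-/

set_option autoImplicit false

namespace Helper76.IG

/-! ### embedding finite groups in alternating groups -/

theorem Embeds.trans {A B C : Type} [Group A] [Group B] [Group C] (h : Embeds A B)
    (h' : Embeds B C) : Embeds A C := by
  obtain ⟨f, hf⟩ := h
  obtain ⟨g, hg⟩ := h'
  exact ⟨g.comp f, hg.comp hf⟩

theorem embeds_alt (H : Type) [Group H] [Finite H] :
    ∃ m : ℕ, Embeds H (alternatingGroup (Fin m)) := by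
  classical
  have := Fintype.ofFinite H
  refine ⟨Fintype.card (H ⊕ H), ?_⟩
  have h1 : Embeds H (alternatingGroup (H ⊕ H)) := by
    let f : H →* Equiv.Perm (H ⊕ H) :=
      (Equiv.Perm.sumCongrHom H H).comp ((MulAction.toPermHom H H).prod (MulAction.toPermHom H H))
    have hf : ∀ x, f x ∈ alternatingGroup (H ⊕ H) := by
      intro x
      rw [Equiv.Perm.mem_alternatingGroup]
      change Equiv.Perm.sign (Equiv.Perm.sumCongr (MulAction.toPermHom H H x)
        (MulAction.toPermHom H H x)) = 1
      rw [Equiv.Perm.sign_sumCongr]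
      exact Int.units_mul_self _
    refine ⟨f.codRestrict _ hf, ?_⟩
    intro x y hxy
    have h2 : f x = f y := congrArg Subtype.val hxy
    have h3 := Equiv.Perm.sumCongrHom_injective h2
    have h4 : MulAction.toPermHom H H x = MulAction.toPermHom H H y := congrArg Prod.fst h3
    have h5 := congrArg (fun σ : Equiv.Perm H => σ 1) h4
    simpa using h5
  refine h1.trans ⟨(Equiv.altCongrHom (Fintype.equivFin (H ⊕ H))).toMonoidHom, ?_⟩
  exact (Equiv.altCongrHom (Fintype.equivFin (H ⊕ H))).injective

theorem alt_mono {m k : ℕ} (h : m ≤ k) :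
    Embeds (alternatingGroup (Fin m)) (alternatingGroup (Fin k)) := by
  classical
  let e : Fin m ↪ Fin k := Fin.castLEEmb h
  let f : Equiv.Perm (Fin m) →* Equiv.Perm (Fin k) := Equiv.Perm.viaEmbeddingHom e
  have hf : ∀ x : alternatingGroup (Fin m), (f.comp (alternatingGroup (Fin m)).subtype) x ∈
      alternatingGroup (Fin k) := by
    intro x
    rw [Equiv.Perm.mem_alternatingGroup]
    change Equiv.Perm.sign (Equiv.Perm.viaEmbedding (x : Equiv.Perm (Fin m)) e) = 1
    unfold Equiv.Perm.viaEmbedding
    rw [Equiv.Perm.sign_extendDomain]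
    exact x.2
  refine ⟨(f.comp (alternatingGroup (Fin m)).subtype).codRestrict _ hf, ?_⟩
  intro x y hxy
  have h2 : f x = f y := congrArg Subtype.val hxy
  exact Subtype.ext (Equiv.Perm.viaEmbeddingHom_injective e h2)

theorem card_alt_lt {n k : ℕ} (hk : 5 ≤ k) (h : n < k) :
    Nat.card (alternatingGroup (Fin n)) < Nat.card (alternatingGroup (Fin k)) := by
  have : Nontrivial (Fin k) := Fin.nontrivial_iff_two_le.2 (by omega)
  have h1 := two_mul_nat_card_alternatingGroup (α := Fin k)
  rw [Nat.card_perm, Nat.card_fin] at h1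
  rcases Nat.lt_or_ge n 2 with hn | hn
  · have h2 : Nat.card (alternatingGroup (Fin n)) = 1 := by
      have : Subsingleton (Fin n) := Fin.subsingleton_iff_le_one.2 (by omega)
      exact Nat.card_of_subsingleton 1
    rw [h2]
    have h3 : 5 ≤ k.factorial := hk.trans (Nat.self_le_factorial k)
    omega
  · have : Nontrivial (Fin n) := Fin.nontrivial_iff_two_le.2 (by omega)
    have h2 := two_mul_nat_card_alternatingGroup (α := Fin n)
    rw [Nat.card_perm, Nat.card_fin] at h2
    have h3 : n.factorial < k.factorial := (Nat.factorial_lt (by omega)).2 h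
    omega

theorem alt_noncomm {k : ℕ} (hk : 5 ≤ k) :
    ∃ x y : alternatingGroup (Fin k), x * y ≠ y * x := by
  by_contra hcon
  push Not at hcon
  have hs : IsSimpleGroup (alternatingGroup (Fin k)) :=
    alternatingGroup.isSimpleGroup (by rw [Nat.card_fin]; exact hk)
  have hc : Nat.Prime (Nat.card (alternatingGroup (Fin k))) := by
    let _ : CommGroup (alternatingGroup (Fin k)) :=
      { (inferInstance : Group (alternatingGroup (Fin k))) with mul_comm := hcon }
    exact IsSimpleGroup.prime_card
  have : Nontrivial (Fin k) := Fin.nontrivial_iff_two_le.2 (by omega)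
  have h1 := two_mul_nat_card_alternatingGroup (α := Fin k)
  rw [Nat.card_perm, Nat.card_fin] at h1
  have h3 : 2 * (2 * 2) ∣ k.factorial :=
    (show 2 * (2 * 2) ∣ Nat.factorial 5 by decide).trans (Nat.factorial_dvd_factorial hk)
  rw [← h1] at h3
  have h4 : 2 * 2 ∣ Nat.card (alternatingGroup (Fin k)) :=
    Nat.dvd_of_mul_dvd_mul_left (by norm_num) h3
  have h5 : 2 ∣ Nat.card (alternatingGroup (Fin k)) := (Dvd.intro _ rfl).trans h4
  have h6 := (Nat.prime_dvd_prime_iff_eq Nat.prime_two hc).1 h5
  rw [← h6] at h4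
  exact absurd h4 (by decide)

/-! ### minimal normal subgroups and quotients -/

theorem exists_minNormal (G : Type) [Group G] [Finite G] [Nontrivial G] :
    ∃ N : Subgroup G, MinNormal N := by
  obtain ⟨N, hN⟩ := (Set.toFinite {N : Subgroup G | N.Normal ∧ N ≠ ⊥}).exists_minimal
    ⟨⊤, inferInstance, by rw [ne_eq, Subgroup.eq_bot_iff_card]
                          rw [Subgroup.card_top]
                          exact (Finite.one_lt_card).ne'⟩
  refine ⟨N, hN.1.1, hN.1.2, ?_⟩
  intro M hM hMN
  by_cases h : M = ⊥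
  · exact Or.inl h
  · exact Or.inr (le_antisymm hMN (hN.2 ⟨hM, h⟩ hMN))

/-- passing to a quotient -/
theorem IsIG.quotient {G : Type} [Group G] [Finite G] {p q : ℕ} (hp : p.Prime) (hq : q.Prime)
    (h : IsIG p q G) (K : Subgroup G) [K.Normal] (hnc : ∃ x y : G ⧸ K, x * y ≠ y * x) :
    IsIG p q (G ⧸ K) := by
  obtain ⟨a, b, ha, hb, hab⟩ := h
  have hs : Function.Surjective (QuotientGroup.mk' K) := QuotientGroup.mk'_surjective K
  have h1 := hab.map _ hs
  have key : ∀ {u v : G ⧸ K}, InvGen u v → u ≠ 1 := by
    intro u v huv hu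
    obtain ⟨x, y, hxy⟩ := hnc
    apply hxy
    have h2 := huv 1 1
    rw [hu, inv_one, one_mul, one_mul, one_mul, mul_one] at h2
    have h3 : ∀ z : G ⧸ K, z ∈ Subgroup.zpowers v := by
      intro z
      have h4 : z ∈ Subgroup.closure {1, v} := by rw [h2]; exact Subgroup.mem_top z
      refine (Subgroup.closure_le _).2 ?_ h4
      intro w hw
      rcases hw with rfl | hw
      · exact Subgroup.one_mem _
      · rw [Set.mem_singleton_iff.1 hw]
        exact Subgroup.mem_zpowers v
    obtain ⟨i, rfl⟩ := Subgroup.mem_zpowers_iff.1 (h3 x)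
    obtain ⟨j, rfl⟩ := Subgroup.mem_zpowers_iff.1 (h3 y)
    rw [← zpow_add, ← zpow_add, add_comm]
  refine ⟨_, _, ?_, ?_, h1⟩
  · have h2 : orderOf (QuotientGroup.mk' K a) ∣ p := by
      rw [← ha]; exact orderOf_map_dvd _ a
    rcases (Nat.dvd_prime hp).1 h2 with h3 | h3
    · exact absurd (orderOf_eq_one_iff.1 h3) (key h1)
    · exact h3
  · have h2 : orderOf (QuotientGroup.mk' K b) ∣ q := by
      rw [← hb]; exact orderOf_map_dvd _ b
    rcases (Nat.dvd_prime hq).1 h2 with h3 | h3
    · exact absurd (orderOf_eq_one_iff.1 h3) (key h1.symm)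
    · exact h3

/-- the groups of the reduction -/
def Good (p q : ℕ) (A : Type) [Group A] : Prop :=
  ∃ (G : Type) (_ : Group G) (_ : Finite G) (S : Subgroup G), S.Normal ∧ IsSimpleGroup S ∧
    Subgroup.centralizer (S : Set G) = ⊥ ∧
    (∀ n : ℕ, IsEmpty (S ≃* alternatingGroup (Fin n))) ∧
    p ∣ Nat.card S ∧ q ∣ Nat.card S ∧ IsIG p q G ∧ Embeds A S

theorem Good.mono {p q : ℕ} {A B : Type} [Group A] [Group B] (h : Good p q B)
    (hAB : Embeds A B) : Good p q A := by
  obtain ⟨G, i1, i2, S, h1, h2, h3, h4, h5, h6, h7, h8⟩ := h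
  exact ⟨G, i1, i2, S, h1, h2, h3, h4, h5, h6, h7, hAB.trans h8⟩

theorem descend {p q k : ℕ} (hp : p.Prime) (hq : q.Prime) (hpq : p ≠ q) (hk : 5 ≤ k)
    (hkpq : p * q < k) : ∀ n : ℕ, ∀ (G : Type) [Group G] [Finite G], Nat.card G ≤ n →
    IsIG p q G → Embeds (alternatingGroup (Fin k)) G →
    Good p q (alternatingGroup (Fin k)) := by
  intro n
  induction n with
  | zero =>
    intro G _ _ hn
    have := Nat.card_pos (α := G)
    omega
  | succ n ih =>
    intro G _ _ hn hG hA
    obtain ⟨f, hf⟩ := hA
    have hs : IsSimpleGroup (alternatingGroup (Fin k)) :=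
      alternatingGroup.isSimpleGroup (by rw [Nat.card_fin]; exact hk)
    obtain ⟨x0, y0, hxy0⟩ := alt_noncomm hk
    have hnt : Nontrivial G := hf.nontrivial
    -- quotients
    have hquot : ∀ K : Subgroup G, K.Normal → K ≠ ⊥ → K.comap f = ⊥ →
        Good p q (alternatingGroup (Fin k)) := by
      intro K hK hK1 hKf
      have hinj : Function.Injective ((QuotientGroup.mk' K).comp f) := by
        rw [injective_iff_map_eq_one]
        intro x hx
        have h1 : f x ∈ K := (QuotientGroup.eq_one_iff (f x)).1 hx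
        have h2 : x ∈ K.comap f := h1
        rw [hKf] at h2
        exact h2
      refine ih (G ⧸ K) ?_ (hG.quotient hp hq K ?_) ⟨_, hinj⟩
      · have h1 := Subgroup.card_eq_card_quotient_mul_card_subgroup K
        have h2 : 1 < Nat.card K := by
          rw [Subgroup.one_lt_card_iff_ne_bot]
          exact hK1
        have h3 : 0 < Nat.card (G ⧸ K) := Nat.card_pos
        have h4 : 2 * Nat.card (G ⧸ K) ≤ Nat.card G := by
          rw [h1, mul_comm]
          exact Nat.mul_le_mul le_rfl h2
        omega
      · refine ⟨((QuotientGroup.mk' K).comp f) x0, ((QuotientGroup.mk' K).comp f) y0, ?_⟩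
        intro h
        rw [← map_mul, ← map_mul] at h
        exact hxy0 (hinj h)
    obtain ⟨N, hN⟩ := exists_minNormal G
    have hNn := hN.1
    rcases (hNn.comap f).eq_bot_or_eq_top with h1 | h1
    · exact hquot N hNn hN.2.1 h1
    · have hle : ∀ x, f x ∈ N := by
        intro x
        have : x ∈ N.comap f := by rw [h1]; exact Subgroup.mem_top x
        exact this
      obtain ⟨a, b, ha, hb, hab⟩ := hG
      have hNnc : ∃ x ∈ N, ∃ y ∈ N, x * y ≠ y * x := by
        refine ⟨f x0, hle _, f y0, hle _, ?_⟩
        rw [← map_mul, ← map_mul]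
        exact fun h => hxy0 (hf h)
      obtain ⟨hNs, hpN, hqN⟩ := simple_of_invGen hN hNnc hab hp hq
        (by rw [← ha]; exact pow_orderOf_eq_one a) (by rw [← hb]; exact pow_orderOf_eq_one b)
      by_cases hC : Subgroup.centralizer (N : Set G) = ⊥
      · refine ⟨G, inferInstance, inferInstance, N, hNn, hNs, hC, ?_, hpN, hqN,
          ⟨a, b, ha, hb, hab⟩, ⟨f.codRestrict N hle, ?_⟩⟩
        · intro m
          refine ⟨fun e => ?_⟩
          have hm : k ≤ m := by
            by_contra hcon
            push Not at hcon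
            have h2 := card_alt_lt hk hcon
            have h3 : Nat.card (alternatingGroup (Fin k)) ≤ Nat.card N :=
              Nat.card_le_card_of_injective (f.codRestrict N hle)
                (fun x y hxy => hf (congrArg Subtype.val hxy))
            rw [Nat.card_congr e.toEquiv] at h3
            omega
          exact no_alt hp hq hpq ha hb hab (by rw [Fintype.card_fin]; omega) e
        · intro x y hxy
          exact hf (congrArg Subtype.val hxy)
      · refine hquot _ ?_ hC ?_
        · exact Subgroup.normal_centralizer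
        · rcases ((inferInstance : (Subgroup.centralizer (N : Set G)).Normal).comap f
            ).eq_bot_or_eq_top with h2 | h2
          · exact h2
          · exfalso
            apply hxy0
            have h3 : x0 ∈ (Subgroup.centralizer (N : Set G)).comap f := by
              rw [h2]; exact Subgroup.mem_top _
            have h4 : f x0 ∈ Subgroup.centralizer (N : Set G) := h3
            have h5 := Subgroup.mem_centralizer_iff.1 h4 (f y0) (hle y0)
            apply hf
            rw [map_mul, map_mul]
            exact h5.symm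

/-- **The reduction.** -/
theorem reduction {p q : ℕ} (hp : p.Prime) (hq : q.Prime) (hpq : p ≠ q) :
    (∀ (H : Type) [Group H] [Finite H], ∃ (G : Type) (_ : Group G) (_ : Finite G),
      IsIG p q G ∧ Embeds H G) ↔
    ∀ m : ℕ, ∃ (G : Type) (_ : Group G) (_ : Finite G) (S : Subgroup G), S.Normal ∧
      IsSimpleGroup S ∧ Subgroup.centralizer (S : Set G) = ⊥ ∧
      (∀ n : ℕ, IsEmpty (S ≃* alternatingGroup (Fin n))) ∧
      p ∣ Nat.card S ∧ q ∣ Nat.card S ∧ IsIG p q G ∧
      Embeds (alternatingGroup (Fin m)) S := by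
  constructor
  · intro h m
    set k := max m (max 5 (p * q + 1)) with hk
    have h5 : 5 ≤ k := (le_max_left _ _).trans (le_max_right _ _)
    have hpqk : p * q + 1 ≤ k := (le_max_right _ _).trans (le_max_right _ _)
    obtain ⟨G, i1, i2, hG, hA⟩ := h (alternatingGroup (Fin k))
    have := descend hp hq hpq h5 (by omega) (Nat.card G) G le_rfl hG hA
    exact this.mono (alt_mono (le_max_left _ _))
  · intro h H _ _
    obtain ⟨m, hm⟩ := embeds_alt H
    obtain ⟨G, i1, i2, S, h1, h2, h3, h4, h5, h6, h7, h8⟩ := h m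
    exact ⟨G, i1, i2, h7, (hm.trans h8).trans ⟨S.subtype, S.subtype_injective⟩⟩

end Helper76.IG
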