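import Pool.Agent.Helper76.IG.Defs

/-!
# Nonabelian minimal normal subgroups of invariably generated groups are simple
-/

set_option autoImplicit false

namespace Helper76.IG

variable {G : Type} [Group G]

/-! ### conjugates of subgroups -/

/-- the conjugate `g S g⁻¹` -/
def cj (g : G) (S : Subgroup G) : Subgroup G := S.map (MulAut.conj g).toMonoidHom

theorem mem_cj {g : G} {S : Subgroup G} {x : G} : x ∈ cj g S ↔ g⁻¹ * x * g ∈ S := by
  constructor
  · rintro ⟨s, hs, rfl⟩
    have : g⁻¹ * (MulAut.conj g).toMonoidHom s * g = s := by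
      change g⁻¹ * (g * s * g⁻¹) * g = s
      group
    rw [this]
    exact hs
  · intro h
    refine ⟨_, h, ?_⟩
    change g * (g⁻¹ * x * g) * g⁻¹ = x
    group

theorem cj_one (S : Subgroup G) : cj 1 S = S := by
  ext x
  rw [mem_cj, inv_one, one_mul, mul_one]

theorem cj_mul (g h : G) (S : Subgroup G) : cj (g * h) S = cj g (cj h S) := by
  ext x
  rw [mem_cj, mem_cj, mem_cj]
  have : (g * h)⁻¹ * x * (g * h) = h⁻¹ * (g⁻¹ * x * g) * h := by group
  rw [this]

theorem cj_mono (g : G) {S T : Subgroup G} (h : S ≤ T) : cj g S ≤ cj g T :=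
  Subgroup.map_mono h

theorem cj_inv_cj (g : G) (S : Subgroup G) : cj g⁻¹ (cj g S) = S := by
  rw [← cj_mul, inv_mul_cancel, cj_one]

theorem cj_cj_inv (g : G) (S : Subgroup G) : cj g (cj g⁻¹ S) = S := by
  rw [← cj_mul, mul_inv_cancel, cj_one]

theorem cj_bot (g : G) : cj g (⊥ : Subgroup G) = ⊥ := Subgroup.map_bot _

theorem card_cj (g : G) (S : Subgroup G) : Nat.card (cj g S) = Nat.card S :=
  Nat.card_congr (S.equivMapOfInjective _ (MulAut.conj g).injective).symm.toEquiv

theorem cj_iSup {ι : Sort*} (g : G) (f : ι → Subgroup G) : cj g (⨆ i, f i) = ⨆ i, cj g (f i) :=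
  Subgroup.map_iSup _ _

theorem cj_inf (g : G) (S T : Subgroup G) : cj g (S ⊓ T) = cj g S ⊓ cj g T := by
  ext x
  rw [Subgroup.mem_inf, mem_cj, mem_cj, mem_cj, Subgroup.mem_inf]

/-- the elements that fix `S` -/
def stab (S : Subgroup G) : Subgroup G where
  carrier := {g | cj g S = S}
  mul_mem' := by
    intro a b ha hb
    change cj (a * b) S = S
    have ha' : cj a S = S := ha
    have hb' : cj b S = S := hb
    rw [cj_mul, hb', ha']
  one_mem' := cj_one S
  inv_mem' := by
    intro a ha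
    change cj a⁻¹ S = S
    have ha' : cj a S = S := ha
    conv_lhs => rw [← ha']
    exact cj_inv_cj a S

theorem mem_stab {S : Subgroup G} {g : G} : g ∈ stab S ↔ cj g S = S := Iff.rfl

theorem normal_of_stab {S : Subgroup G} (h : ∀ g, cj g S = S) : S.Normal := by
  constructor
  intro x hx g
  have h1 := h g
  rw [← h1, mem_cj]
  have : g⁻¹ * (g * x * g⁻¹) * g = x := by group
  rw [this]
  exact hx

theorem cj_of_normal {N : Subgroup G} (hN : N.Normal) (g : G) : cj g N = N := by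
  ext x
  rw [mem_cj]
  constructor
  · intro h
    have := hN.conj_mem _ h g
    have e : g * (g⁻¹ * x * g) * g⁻¹ = x := by group
    rwa [e] at this
  · intro h
    have := hN.conj_mem _ h g⁻¹
    rwa [inv_inv] at this

/-- elements commuting with `S` fix `S` -/
theorem cj_eq_of_commute {S : Subgroup G} {g : G} (h : ∀ s ∈ S, g * s = s * g) : cj g S = S := by
  have h1 : ∀ s ∈ S, g * s * g⁻¹ = s := fun s hs => by rw [h s hs]; group
  have h2 : ∀ s ∈ S, g⁻¹ * s * g = s := fun s hs => by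
    have := h s hs
    rw [mul_assoc, ← this]; group
  ext x
  rw [mem_cj]
  constructor
  · intro hx
    have h3 := h1 _ hx
    have e : g * (g⁻¹ * x * g) * g⁻¹ = x := by group
    rw [e] at h3
    rw [h3]
    exact hx
  · intro hx
    rw [h2 x hx]
    exact hx

/-! ### minimal normal subgroups -/

/-- `N` is a minimal normal subgroup of `G` -/
def MinNormal (N : Subgroup G) : Prop :=
  N.Normal ∧ N ≠ ⊥ ∧ ∀ K : Subgroup G, K.Normal → K ≤ N → K = ⊥ ∨ K = N

/-- `S` is a nontrivial subgroup of `N` normalized by `N` -/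
def QN (N S : Subgroup G) : Prop := S ≤ N ∧ S ≠ ⊥ ∧ ∀ n ∈ N, cj n S = S

/-- `S` is minimal among the nontrivial subgroups of `N` normalized by `N` -/
def MQ (N S : Subgroup G) : Prop := QN N S ∧ ∀ T, QN N T → T ≤ S → T = S

theorem QN.cj {N S : Subgroup G} (hN : N.Normal) (h : QN N S) (g : G) : QN N (cj g S) := by
  refine ⟨?_, ?_, ?_⟩
  · have := cj_mono g h.1
    rwa [cj_of_normal hN] at this
  · intro h0
    apply h.2.1
    have := congrArg (IG.cj g⁻¹) h0
    rwa [cj_inv_cj, cj_bot] at this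
  · intro n hn
    have h1 : g⁻¹ * n * g ∈ N := by
      have := hN.conj_mem _ hn g⁻¹
      rwa [inv_inv] at this
    have h2 := h.2.2 _ h1
    rw [← cj_mul]
    have e : n * g = g * (g⁻¹ * n * g) := by group
    rw [e, cj_mul, h2]

theorem MQ.cj {N S : Subgroup G} (hN : N.Normal) (h : MQ N S) (g : G) : MQ N (cj g S) := by
  refine ⟨h.1.cj hN g, fun T hT hle => ?_⟩
  have h1 := h.2 (IG.cj g⁻¹ T) (hT.cj hN g⁻¹) (by
    have := cj_mono g⁻¹ hle
    rwa [cj_inv_cj] at this)
  rw [← h1, cj_cj_inv]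

theorem exists_MQ [Finite G] {N : Subgroup G} (hN : MinNormal N) : ∃ S, MQ N S := by
  classical
  have hex : ∃ k, ∃ S, QN N S ∧ Nat.card S = k :=
    ⟨_, N, ⟨le_refl _, hN.2.1, fun n _ => cj_of_normal hN.1 n⟩, rfl⟩
  obtain ⟨S, hS, hc⟩ := Nat.find_spec hex
  refine ⟨S, hS, fun T hT hle => ?_⟩
  have h1 := Nat.find_min' hex ⟨T, hT, rfl⟩
  rw [← hc] at h1
  exact Subgroup.eq_of_le_of_card_ge hle h1

/-- the conjugates of `S` -/
abbrev Cls (S : Subgroup G) : Type := {T : Subgroup G // ∃ g, T = cj g S}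

section Blocks

variable [Finite G] {N S : Subgroup G} (hN : MinNormal N) (hS : MQ N S)
include hN hS

theorem cls_MQ (T : Cls S) : MQ N T.1 := by
  obtain ⟨g, hg⟩ := T.2
  rw [hg]
  exact hS.cj hN.1 g

theorem cls_inf {T U : Cls S} (h : T ≠ U) : T.1 ⊓ U.1 = ⊥ := by
  by_contra hne
  have hT := cls_MQ hN hS T
  have hU := cls_MQ hN hS U
  have hq : QN N (T.1 ⊓ U.1) := by
    refine ⟨inf_le_left.trans hT.1.1, hne, fun n hn => ?_⟩
    rw [cj_inf, hT.1.2.2 n hn, hU.1.2.2 n hn]
  have h1 := hT.2 _ hq inf_le_left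
  have h2 := hU.2 _ hq inf_le_right
  exact h (Subtype.ext (h1.symm.trans h2))

theorem cls_commute {T U : Cls S} (h : T ≠ U) (x y : G) (hx : x ∈ T.1) (hy : y ∈ U.1) :
    x * y = y * x := by
  have hT := cls_MQ hN hS T
  have hU := cls_MQ hN hS U
  have h1 : x * y * x⁻¹ * y⁻¹ ∈ T.1 ⊓ U.1 := by
    constructor
    · have h2 : y * x⁻¹ * y⁻¹ ∈ T.1 := by
        rw [← hT.1.2.2 y (hU.1.1 hy), mem_cj]
        have e : y⁻¹ * (y * x⁻¹ * y⁻¹) * y = x⁻¹ := by group
        rw [e]
        exact T.1.inv_mem hx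
      have e : x * y * x⁻¹ * y⁻¹ = x * (y * x⁻¹ * y⁻¹) := by group
      rw [e]
      exact T.1.mul_mem hx h2
    · have h2 : x * y * x⁻¹ ∈ U.1 := by
        rw [← hU.1.2.2 x (hT.1.1 hx), mem_cj]
        have e : x⁻¹ * (x * y * x⁻¹) * x = y := by group
        rw [e]
        exact hy
      exact U.1.mul_mem h2 (U.1.inv_mem hy)
  rw [cls_inf hN hS h, Subgroup.mem_bot] at h1
  have h2 : x * y * x⁻¹ * y⁻¹ * y * x = y * x := by rw [h1, one_mul]
  have e : x * y * x⁻¹ * y⁻¹ * y * x = x * y := by group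
  rw [e] at h2
  exact h2

theorem cls_sup : ⨆ T : Cls S, T.1 = N := by
  have h1 : (⨆ T : Cls S, T.1) ≤ N := iSup_le fun T => (cls_MQ hN hS T).1.1
  have h2 : (⨆ T : Cls S, T.1).Normal := by
    apply normal_of_stab
    have key : ∀ g, cj g (⨆ T : Cls S, T.1) ≤ ⨆ T : Cls S, T.1 := by
      intro g
      rw [cj_iSup]
      refine iSup_le fun T => ?_
      obtain ⟨k, hk⟩ := T.2
      exact le_iSup (fun T : Cls S => T.1) ⟨cj g T.1, g * k, by rw [cj_mul, hk]⟩
    intro g
    apply le_antisymm (key g)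
    have := cj_mono g (key g⁻¹)
    rwa [cj_cj_inv] at this
  rcases hN.2.2 _ h2 h1 with h | h
  · exfalso
    apply hS.1.2.1
    rw [eq_bot_iff, ← h]
    exact le_iSup (fun T : Cls S => T.1) ⟨S, 1, (cj_one S).symm⟩
  · exact h

/-- `T` is not commutative unless `N` is -/
theorem cls_noncomm (hnc : ∃ x ∈ N, ∃ y ∈ N, x * y ≠ y * x) (T : Cls S) :
    ∃ x ∈ T.1, ∃ y ∈ T.1, x * y ≠ y * x := by
  by_contra hcon
  push Not at hcon
  -- all conjugates are commutative
  have hall : ∀ U : Cls S, ∀ x ∈ U.1, ∀ y ∈ U.1, x * y = y * x := by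
    intro U x hx y hy
    obtain ⟨g, hg⟩ := T.2
    obtain ⟨k, hk⟩ := U.2
    have hUT : U.1 = cj (k * g⁻¹) T.1 := by rw [hk, hg, cj_mul, cj_inv_cj]
    rw [hUT, mem_cj] at hx hy
    have h := hcon _ hx _ hy
    set m := k * g⁻¹
    have e1 : (m⁻¹ * x * m) * (m⁻¹ * y * m) = m⁻¹ * (x * y) * m := by group
    have e2 : (m⁻¹ * y * m) * (m⁻¹ * x * m) = m⁻¹ * (y * x) * m := by group
    rw [e1, e2] at h
    exact mul_left_cancel (mul_right_cancel h)
  have h1 : ∀ U : Cls S, U.1 ≤ Subgroup.centralizer (N : Set G) := by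
    intro U x hx
    rw [Subgroup.mem_centralizer_iff]
    intro n hn
    have h2 : N ≤ Subgroup.centralizer {x} := by
      rw [← cls_sup hN hS]
      refine iSup_le fun V y hy => ?_
      rw [Subgroup.mem_centralizer_iff]
      intro z hz
      rw [Set.mem_singleton_iff.1 hz]
      by_cases hUV : U = V
      · subst hUV
        exact hall U x hx y hy
      · exact cls_commute hN hS hUV x y hx hy
    have h3 := Subgroup.mem_centralizer_iff.1 (h2 hn) x (Set.mem_singleton x)
    exact h3.symm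
  obtain ⟨x, hx, y, hy, hxy⟩ := hnc
  have h4 : N ≤ Subgroup.centralizer (N : Set G) := by
    conv_lhs => rw [← cls_sup hN hS]
    exact iSup_le h1
  exact hxy (Subgroup.mem_centralizer_iff.1 (h4 hy) x hx)

theorem cls_indep (hnc : ∃ x ∈ N, ∃ y ∈ N, x * y ≠ y * x) :
    iSupIndep (fun T : Cls S => T.1) := by
  intro T
  rw [disjoint_iff]
  by_contra hne
  have hT := cls_MQ hN hS T
  have h0 : (⨆ (U : Cls S) (_ : U ≠ T), U.1) ≤ Subgroup.centralizer (T.1 : Set G) := by
    refine iSup_le fun U => iSup_le fun hU y hy => ?_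
    rw [Subgroup.mem_centralizer_iff]
    intro x hx
    exact cls_commute hN hS hU.symm x y hx hy
  -- the centre of `T`
  have hq : QN N (T.1 ⊓ Subgroup.centralizer (T.1 : Set G)) := by
    refine ⟨inf_le_left.trans hT.1.1, ?_, fun n hn => ?_⟩
    · intro hb
      apply hne
      rw [eq_bot_iff, ← hb]
      exact inf_le_inf_left _ h0
    · have hc : cj n (Subgroup.centralizer (T.1 : Set G)) = Subgroup.centralizer (T.1 : Set G) := by
        have key : ∀ n ∈ N, cj n (Subgroup.centralizer (T.1 : Set G)) ≤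
            Subgroup.centralizer (T.1 : Set G) := by
          intro n hn x hx
          rw [mem_cj, Subgroup.mem_centralizer_iff] at hx
          rw [Subgroup.mem_centralizer_iff]
          intro t ht
          have ht' : n⁻¹ * t * n ∈ T.1 := by
            rw [← mem_cj, hT.1.2.2 n hn]; exact ht
          have h := hx _ ht'
          have e1 : (n⁻¹ * t * n) * (n⁻¹ * x * n) = n⁻¹ * (t * x) * n := by group
          have e2 : (n⁻¹ * x * n) * (n⁻¹ * t * n) = n⁻¹ * (x * t) * n := by group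
          rw [e1, e2] at h
          exact mul_left_cancel (mul_right_cancel h)
        apply le_antisymm (key n hn)
        have := cj_mono n (key n⁻¹ (N.inv_mem hn))
        rwa [cj_cj_inv] at this
      rw [cj_inf, hT.1.2.2 n hn, hc]
  have h1 := hT.2 _ hq inf_le_left
  obtain ⟨x, hx, y, hy, hxy⟩ := cls_noncomm hN hS hnc T
  rw [← h1] at hy
  exact hxy (Subgroup.mem_centralizer_iff.1 hy.2 x hx)

/-- subgroups of `S` normalized by `S` -/
theorem cls_simple {K : Subgroup G} (hK : K ≤ S) (hKn : ∀ s ∈ S, cj s K = K) :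
    K = ⊥ ∨ K = S := by
  by_cases h0 : K = ⊥
  · exact Or.inl h0
  right
  apply hS.2 K ⟨hK.trans hS.1.1, h0, ?_⟩ hK
  intro n hn
  have h1 : N ≤ stab K := by
    rw [← cls_sup hN hS]
    refine iSup_le fun U x hx => ?_
    by_cases hU : U = ⟨S, 1, (cj_one S).symm⟩
    · rw [hU] at hx
      exact hKn x hx
    · apply cj_eq_of_commute
      intro s hs
      exact cls_commute hN hS hU x s hx (hK hs)
  exact h1 hn

end Blocks

/-! ### cardinality of products of commuting independent subgroups -/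

theorem card_iSup {ι : Type} [Finite ι] (H : ι → Subgroup G)
    (hc : ∀ i j, i ≠ j → ∀ x y : G, x ∈ H i → y ∈ H j → x * y = y * x) (hi : iSupIndep H) :
    Nat.card (⨆ i, H i : Subgroup G) = ∏ᶠ i, Nat.card (H i) := by
  classical
  have := Fintype.ofFinite ι
  have hc' : Pairwise fun i j : ι => ∀ x y : G, x ∈ H i → y ∈ H j → Commute x y :=
    fun i j hij x y hx hy => hc i j hij x y hx hy
  rw [← Subgroup.noncommPiCoprod_range (hcomm := hc')]
  rw [← Nat.card_congr (MonoidHom.ofInjective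
    (Subgroup.injective_noncommPiCoprod_of_iSupIndep (hcomm := hc') hi)).toEquiv]
  rw [Nat.card_pi, finprod_eq_prod_of_fintype]

/-! ### equivariant choices for a free action of a group of prime order -/

/-- a permutation of prime order without fixed points: equivariant choice -/
theorem exists_equivariant {ι X : Type} (τ : Equiv.Perm ι) (θ : Equiv.Perm X) {ℓ : ℕ}
    (hℓ : ℓ.Prime) (hτ : τ ^ ℓ = 1) (hθ : θ ^ ℓ = 1) (hfree : ∀ i, τ i ≠ i) (P : ι → X → Prop)
    (hP : ∀ i x, P i x → P (τ i) (θ x)) (hex : ∀ i, ∃ x, P i x) :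
    ∃ f : ι → X, (∀ i, P i (f i)) ∧ ∀ i, f (τ i) = θ (f i) := by
  classical
  -- freeness
  have hfr : ∀ (i : ι) (k : ℤ), (τ ^ k) i = i → (ℓ : ℤ) ∣ k := by
    intro i k hk
    by_contra hnd
    have hco : IsCoprime (ℓ : ℤ) k :=
      (Prime.coprime_iff_not_dvd (Nat.prime_iff_prime_int.1 hℓ)).2 hnd
    obtain ⟨u, v, huv⟩ := hco
    have h1 : (τ ^ (v * k)) i = i := by
      rw [mul_comm, zpow_mul]
      exact Equiv.Perm.zpow_apply_eq_self_of_apply_eq_self hk v
    have h2 : τ ^ (u * (ℓ : ℤ)) = 1 := by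
      rw [mul_comm, zpow_mul, zpow_natCast, hτ, one_zpow]
    apply hfree i
    have h3 : τ ^ (u * (ℓ : ℤ) + v * k) = τ := by rw [huv, zpow_one]
    rw [zpow_add, h2, one_mul] at h3
    rw [← h3]
    exact h1
  have hθk : ∀ k k' : ℤ, (ℓ : ℤ) ∣ k - k' → θ ^ k = θ ^ k' := by
    intro k k' ⟨c, hc⟩
    have h1 : k = k' + ℓ * c := by linarith
    rw [h1, zpow_add, zpow_mul, zpow_natCast, hθ, one_zpow, mul_one]
  let st := Equiv.Perm.SameCycle.setoid τ
  let rep : ι → ι := fun i => (Quotient.mk st i).out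
  have hrep : ∀ i, ∃ m : ℤ, (τ ^ m) (rep i) = i := fun i => Quotient.mk_out (s := st) i
  choose m hm using hrep
  choose g hg using hex
  have hrτ : ∀ i, rep (τ i) = rep i := by
    intro i
    have h1 : Quotient.mk st (τ i) = Quotient.mk st i :=
      Quotient.sound (s := st) (⟨-1, by simp⟩ : Equiv.Perm.SameCycle τ (τ i) i)
    change (Quotient.mk st (τ i)).out = (Quotient.mk st i).out
    rw [h1]
  have hPn : ∀ (n : ℕ) i x, P i x → P ((τ ^ n) i) ((θ ^ n) x) := by
    intro n
    induction n with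
    | zero => intro i x h; exact h
    | succ n ih =>
      intro i x h
      rw [pow_succ', pow_succ', Equiv.Perm.mul_apply, Equiv.Perm.mul_apply]
      exact hP _ _ (ih i x h)
  have hPz : ∀ (k : ℤ) i x, P i x → P ((τ ^ k) i) ((θ ^ k) x) := by
    intro k i x h
    -- reduce modulo `ℓ`
    have hpos : (0 : ℤ) < ℓ := by exact_mod_cast hℓ.pos
    obtain ⟨n, hn⟩ := Int.eq_ofNat_of_zero_le (Int.emod_nonneg k hpos.ne')
    have hk : k = n + ℓ * (k / ℓ) := by rw [← hn]; exact (Int.emod_add_mul_ediv k ℓ).symm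
    have h1 : τ ^ k = τ ^ n := by
      rw [hk, zpow_add, zpow_mul, zpow_natCast, zpow_natCast, hτ, one_zpow, mul_one]
    have h2 : θ ^ k = θ ^ n := by
      rw [hk, zpow_add, zpow_mul, zpow_natCast, zpow_natCast, hθ, one_zpow, mul_one]
    rw [h1, h2]
    exact hPn n i x h
  refine ⟨fun i => (θ ^ m i) (g (rep i)), fun i => ?_, fun i => ?_⟩
  · have := hPz (m i) (rep i) (g (rep i)) (hg _)
    rwa [hm i] at this
  · change (θ ^ m (τ i)) (g (rep (τ i))) = θ ((θ ^ m i) (g (rep i)))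
    have h1 : (τ ^ (m (τ i) - (m i + 1))) (rep i) = rep i := by
      have h2 := hm (τ i)
      rw [hrτ i] at h2
      have h3 : (τ ^ (m i + 1)) (rep i) = τ i := by
        rw [add_comm, zpow_add, zpow_one, Equiv.Perm.mul_apply, hm i]
      rw [sub_eq_neg_add, zpow_add, Equiv.Perm.mul_apply, h2, zpow_neg, Equiv.Perm.inv_eq_iff_eq,
        h3]
    have h2 := hθk _ _ (hfr _ _ h1)
    rw [h2, hrτ i, add_comm, zpow_add, zpow_one, Equiv.Perm.mul_apply]

/-! ### Sylow subgroups -/

/-- `R` has the order of a Sylow `r`-subgroup of `N` -/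
def SylN (r : ℕ) (N R : Subgroup G) : Prop :=
  R ≤ N ∧ Nat.card R = r ^ (Nat.card N).factorization r

theorem SylN.cj {r : ℕ} {N R : Subgroup G} (h : SylN r N R) (g : G) :
    SylN r (cj g N) (cj g R) := ⟨cj_mono g h.1, by rw [card_cj, card_cj]; exact h.2⟩

theorem exists_SylN [Finite G] {r : ℕ} (hr : r.Prime) (N : Subgroup G) : ∃ R, SylN r N R := by
  have : Fact r.Prime := ⟨hr⟩
  obtain ⟨P⟩ : Nonempty (Sylow r N) := Sylow.nonempty
  refine ⟨(P : Subgroup N).map N.subtype, ?_, ?_⟩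
  · rintro x ⟨y, _, rfl⟩
    exact y.2
  · rw [← P.card_eq_multiplicity]
    exact Nat.card_congr ((P : Subgroup N).equivMapOfInjective _ N.subtype_injective).symm.toEquiv

theorem SylN.conj [Finite G] {r : ℕ} (hr : r.Prime) {N R R' : Subgroup G} (h : SylN r N R)
    (h' : SylN r N R') : ∃ n ∈ N, Helper76.IG.cj n R = R' := by
  have : Fact r.Prime := ⟨hr⟩
  have hc : ∀ {R : Subgroup G}, SylN r N R → Nat.card (R.subgroupOf N) =
      r ^ (Nat.card N).factorization r := by
    intro R h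
    rw [← h.2]
    exact Nat.card_congr (Subgroup.subgroupOfEquivOfLe h.1).toEquiv
  let P := Sylow.ofCard (R.subgroupOf N) (hc h)
  let P' := Sylow.ofCard (R'.subgroupOf N) (hc h')
  obtain ⟨n, hn⟩ := MulAction.exists_smul_eq N P P'
  refine ⟨n, n.2, ?_⟩
  have h1 : ∀ x : N, x ∈ (P' : Subgroup N) ↔ n⁻¹ * x * n ∈ (P : Subgroup N) := by
    intro x
    rw [← hn, Sylow.coe_subgroup_smul, Subgroup.mem_pointwise_smul_iff_inv_smul_mem]
    simp [MulAut.smul_def]
  ext x
  rw [mem_cj]
  constructor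
  · intro hx
    have hxN : x ∈ N := by
      have h2 := N.mul_mem (N.mul_mem n.2 (h.1 hx)) (N.inv_mem n.2)
      have e : (n : G) * ((n : G)⁻¹ * x * n) * (n : G)⁻¹ = x := by group
      rwa [e] at h2
    exact (h1 ⟨x, hxN⟩).2 hx
  · intro hx
    exact (h1 ⟨x, h'.1 hx⟩).1 hx

open scoped Pointwise in
/-- an element of prime order `ℓ` fixes a Sylow `r`-subgroup of `N` if `r = ℓ` or `ℓ ∤ |N|` -/
theorem exists_fixed_SylN [Finite G] {N : Subgroup G} (hN : N.Normal) {x : G} {ℓ r : ℕ}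
    (hℓ : ℓ.Prime) (hr : r.Prime) (hx : x ^ ℓ = 1) (h : r = ℓ ∨ ¬ ℓ ∣ Nat.card N) :
    ∃ R, SylN r N R ∧ cj x R = R := by
  have : Fact r.Prime := ⟨hr⟩
  have : Fact ℓ.Prime := ⟨hℓ⟩
  set f : MulAut N := MulAut.conjNormal x with hf
  have hfℓ : f ^ ℓ = 1 := by rw [hf, ← map_pow, hx, map_one]
  have hZ : IsPGroup ℓ (Subgroup.zpowers f) := by
    intro y
    obtain ⟨k, hk⟩ := Subgroup.mem_zpowers_iff.1 y.2
    refine ⟨1, ?_⟩
    apply Subtype.ext
    rw [pow_one]
    change (y : MulAut N) ^ ℓ = 1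
    rw [← hk, ← zpow_natCast, ← zpow_mul, mul_comm, zpow_mul, zpow_natCast, hfℓ, one_zpow]
  have hcard : ¬ ℓ ∣ Nat.card (Sylow r N) := by
    rcases h with h | h
    · subst h
      intro hd
      have h1 := card_sylow_modEq_one r N
      have h2 : (Nat.card (Sylow r N)) % r = 0 := Nat.mod_eq_zero_of_dvd hd
      rw [Nat.ModEq, h2, Nat.mod_eq_of_lt hr.one_lt] at h1
      exact absurd h1 (by norm_num)
    · intro hd
      obtain ⟨P⟩ : Nonempty (Sylow r N) := Sylow.nonempty
      exact h ((hd.trans P.card_dvd_index).trans (Subgroup.index_dvd_card _))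
  obtain ⟨P, hP⟩ := hZ.nonempty_fixed_point_of_prime_not_dvd_card (Sylow r N) hcard
  have hfP : f • P = P := hP ⟨f, Subgroup.mem_zpowers f⟩
  refine ⟨(P : Subgroup N).map N.subtype, ⟨?_, ?_⟩, ?_⟩
  · rintro x ⟨y, _, rfl⟩
    exact y.2
  · rw [← P.card_eq_multiplicity]
    exact Nat.card_congr ((P : Subgroup N).equivMapOfInjective _ N.subtype_injective).symm.toEquiv
  · have h1 : ∀ y : N, y ∈ (P : Subgroup N) ↔ f⁻¹ y ∈ (P : Subgroup N) := by
      intro y
      have h2 : y ∈ ((f • P : Sylow r N) : Subgroup N) ↔ f⁻¹ y ∈ (P : Subgroup N) := by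
        change y ∈ f • (P : Subgroup N) ↔ _
        rw [Subgroup.mem_pointwise_smul_iff_inv_smul_mem]
        rfl
      rwa [hfP] at h2
    have hinv : ∀ y : N, ((f⁻¹ y : N) : G) = x⁻¹ * y * x := by
      intro y
      rw [hf, ← map_inv, MulAut.conjNormal_apply, inv_inv]
    ext y
    rw [mem_cj]
    constructor
    · rintro ⟨z, hz, hzy⟩
      have hyN : y ∈ N := by
        have h2 := hN.conj_mem _ z.2 x
        have e : x * (z : G) * x⁻¹ = y := by
          have : (z : G) = x⁻¹ * y * x := hzy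
          rw [this]; group
        rwa [e] at h2
      refine ⟨⟨y, hyN⟩, (h1 _).2 ?_, rfl⟩
      have : f⁻¹ ⟨y, hyN⟩ = z := by
        apply Subtype.ext
        rw [hinv]
        exact hzy.symm
      rw [this]
      exact hz
    · rintro ⟨z, hz, rfl⟩
      exact ⟨f⁻¹ z, (h1 z).1 hz, hinv z⟩

/-- an element of prime order that fixes no block fixes a Sylow `r`-subgroup of `N`, for all `r` -/
theorem exists_fixed_SylN_of_free [Finite G] {N S : Subgroup G} (hN : MinNormal N) (hS : MQ N S)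
    (hnc : ∃ x ∈ N, ∃ y ∈ N, x * y ≠ y * x) {x : G} {ℓ r : ℕ} (hℓ : ℓ.Prime) (hr : r.Prime)
    (hx : x ^ ℓ = 1) (hfree : ∀ T : Cls S, cj x T.1 ≠ T.1) : ∃ R, SylN r N R ∧ cj x R = R := by
  classical
  have : Fact r.Prime := ⟨hr⟩
  -- the permutations
  let τ : Equiv.Perm (Cls S) :=
    { toFun := fun T => ⟨cj x T.1, by obtain ⟨k, hk⟩ := T.2; exact ⟨x * k, by rw [cj_mul, hk]⟩⟩
      invFun := fun T => ⟨cj x⁻¹ T.1, by
        obtain ⟨k, hk⟩ := T.2; exact ⟨x⁻¹ * k, by rw [cj_mul, hk]⟩⟩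
      left_inv := fun T => Subtype.ext (cj_inv_cj x T.1)
      right_inv := fun T => Subtype.ext (cj_cj_inv x T.1) }
  let θ : Equiv.Perm (Subgroup G) :=
    { toFun := fun T => cj x T
      invFun := fun T => cj x⁻¹ T
      left_inv := fun T => cj_inv_cj x T
      right_inv := fun T => cj_cj_inv x T }
  have hθn : ∀ (n : ℕ) (T : Subgroup G), (θ ^ n) T = cj (x ^ n) T := by
    intro n
    induction n with
    | zero => intro T; rw [pow_zero, pow_zero, cj_one]; rfl
    | succ n ih => intro T; rw [pow_succ', Equiv.Perm.mul_apply, ih, pow_succ', cj_mul]; rfl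
  have hτn : ∀ (n : ℕ) (T : Cls S), ((τ ^ n) T).1 = cj (x ^ n) T.1 := by
    intro n
    induction n with
    | zero => intro T; rw [pow_zero, pow_zero, cj_one]; rfl
    | succ n ih =>
      intro T
      rw [pow_succ', Equiv.Perm.mul_apply, pow_succ', cj_mul, ← ih]
      rfl
  have hθ : θ ^ ℓ = 1 := by
    apply Equiv.ext
    intro T
    rw [hθn, hx, cj_one]; rfl
  have hτ : τ ^ ℓ = 1 := by
    apply Equiv.ext
    intro T
    apply Subtype.ext
    rw [hτn, hx, cj_one]; rfl
  obtain ⟨R, hR, hRx⟩ := exists_equivariant τ θ hℓ hτ hθ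
    (fun T h => hfree T (congrArg Subtype.val h)) (fun T R => SylN r T.1 R)
    (fun T R h => h.cj x) (fun T => exists_SylN hr T.1)
  refine ⟨⨆ T, R T, ⟨?_, ?_⟩, ?_⟩
  · exact iSup_le fun T => (hR T).1.trans (cls_MQ hN hS T).1.1
  · have hcomm : ∀ T U : Cls S, T ≠ U → ∀ y z : G, y ∈ R T → z ∈ R U → y * z = z * y :=
      fun T U h y z hy hz => cls_commute hN hS h y z ((hR T).1 hy) ((hR U).1 hz)
    have hind := cls_indep hN hS hnc
    have hindR : iSupIndep R := hind.mono fun T => (hR T).1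
    rw [card_iSup R hcomm hindR]
    have h1 : Nat.card N = ∏ᶠ T : Cls S, Nat.card T.1 := by
      conv_lhs => rw [← cls_sup hN hS]
      exact card_iSup (fun T : Cls S => T.1) (fun T U h y z hy hz =>
        cls_commute hN hS h y z hy hz) hind
    have := Fintype.ofFinite (Cls S)
    rw [h1, finprod_eq_prod_of_fintype, finprod_eq_prod_of_fintype, Nat.factorization_prod]
    · rw [Finsupp.finsetSum_apply, ← Finset.prod_pow_eq_pow_sum]
      exact Finset.prod_congr rfl fun T _ => (hR T).2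
    · intro T _
      exact Nat.card_pos.ne'
  · rw [cj_iSup]
    apply le_antisymm
    · refine iSup_le fun T => ?_
      have h1 : cj x (R T) = R (τ T) := (hRx T).symm
      rw [h1]
      exact le_iSup R (τ T)
    · refine iSup_le fun T => ?_
      have h1 : R T = cj x (R (τ.symm T)) := by
        have := hRx (τ.symm T)
        rw [Equiv.apply_symm_apply] at this
        exact this
      rw [h1]
      exact le_iSup (fun T => cj x (R T)) (τ.symm T)

/-- no Sylow subgroup is fixed by both generators -/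
theorem no_common_SylN [Finite G] {N : Subgroup G} (hN : MinNormal N)
    (hnc : ∃ x ∈ N, ∃ y ∈ N, x * y ≠ y * x) {a b : G} (hab : InvGen a b) {r : ℕ} (hr : r.Prime)
    (hrN : r ∣ Nat.card N) {R R' : Subgroup G} (hR : SylN r N R) (hR' : SylN r N R')
    (ha : cj a R = R) (hb : cj b R' = R') : False := by
  have : Fact r.Prime := ⟨hr⟩
  obtain ⟨n, hn, hnR⟩ := hR.conj hr hR'
  have hM : stab R = ⊤ := by
    apply hab.eq_top (g := 1) (k := n)
    · rw [inv_one, one_mul, mul_one]; exact ha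
    · change cj (n⁻¹ * b * n) R = R
      rw [cj_mul, cj_mul, hnR, hb, ← hnR, cj_inv_cj]
  have hRn : R.Normal := normal_of_stab fun g => by
    have : g ∈ stab R := by rw [hM]; exact Subgroup.mem_top g
    exact this
  have hcard : r ∣ Nat.card R := by
    rw [hR.2]
    apply dvd_pow_self
    have := (hr.dvd_iff_one_le_factorization Nat.card_pos.ne').1 hrN
    omega
  rcases hN.2.2 R hRn hR.1 with h | h
  · rw [h, Subgroup.card_bot] at hcard
    exact hr.one_lt.ne' (Nat.dvd_one.1 hcard)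
  · -- `N` is an `r`-group
    have hp : IsPGroup r N := by
      have h1 : Nat.card N = r ^ (Nat.card N).factorization r := by
        conv_lhs => rw [← h]
        exact hR.2
      exact IsPGroup.of_card h1
    have hnt : Nontrivial N := by
      rw [Subgroup.nontrivial_iff_ne_bot]
      exact hN.2.1
    have hcn := hp.center_nontrivial
    have := hN.1
    have hcN : ((Subgroup.center N).map N.subtype).Normal := inferInstance
    have hle : (Subgroup.center N).map N.subtype ≤ N := by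
      rintro y ⟨z, _, rfl⟩
      exact z.2
    rcases hN.2.2 _ hcN hle with h1 | h1
    · rw [Subgroup.map_eq_bot_iff_of_injective _ N.subtype_injective] at h1
      rw [Subgroup.nontrivial_iff_ne_bot] at hcn
      exact hcn h1
    · obtain ⟨x, hx, y, hy, hxy⟩ := hnc
      have h2 : x ∈ (Subgroup.center N).map N.subtype := by rw [h1]; exact hx
      obtain ⟨z, hz, hzx⟩ := h2
      have h3 := Subgroup.mem_center_iff.1 hz ⟨y, hy⟩
      apply hxy
      have h4 := congrArg Subtype.val h3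
      have h5 : (z : G) = x := hzx
      change y * (z : G) = (z : G) * y at h4
      rw [h5] at h4
      exact h4.symm

/-- one half of the main argument -/
theorem block_fixed [Finite G] {N S : Subgroup G} (hN : MinNormal N) (hS : MQ N S)
    (hnc : ∃ x ∈ N, ∃ y ∈ N, x * y ≠ y * x) {a b : G} (hab : InvGen a b) {p q : ℕ}
    (hp : p.Prime) (hq : q.Prime) (ha : a ^ p = 1) (hb : b ^ q = 1) (hqN : q ∣ Nat.card N) :
    ∃ T : Cls S, cj a T.1 = T.1 := by
  by_contra hcon
  push Not at hcon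
  obtain ⟨R, hR, hRa⟩ := exists_fixed_SylN_of_free hN hS hnc hp hq ha hcon
  obtain ⟨R', hR', hRb⟩ := exists_fixed_SylN hN.1 hq hq hb (Or.inl rfl)
  exact no_common_SylN hN hnc hab hq hqN hR hR' hRa hRb

theorem dvd_card [Finite G] {N : Subgroup G} (hN : MinNormal N)
    (hnc : ∃ x ∈ N, ∃ y ∈ N, x * y ≠ y * x) {a b : G} (hab : InvGen a b) {p q : ℕ}
    (hp : p.Prime) (hq : q.Prime) (ha : a ^ p = 1) (hb : b ^ q = 1) : p ∣ Nat.card N := by
  by_contra hpN
  obtain ⟨r, hr, hrN, hrb⟩ : ∃ r : ℕ, r.Prime ∧ r ∣ Nat.card N ∧ (r = q ∨ ¬ q ∣ Nat.card N) := by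
    by_cases h : q ∣ Nat.card N
    · exact ⟨q, hq, h, Or.inl rfl⟩
    · obtain ⟨r, hr, hrN⟩ := Nat.exists_prime_and_dvd (n := Nat.card N) (by
        intro h1
        apply hN.2.1
        exact Subgroup.card_eq_one.1 h1)
      exact ⟨r, hr, hrN, Or.inr h⟩
  obtain ⟨R, hR, hRa⟩ := exists_fixed_SylN hN.1 hp hr ha (Or.inr hpN)
  obtain ⟨R', hR', hRb⟩ := exists_fixed_SylN hN.1 hq hr hb hrb
  exact no_common_SylN hN hnc hab hr hrN hR hR' hRa hRb

/-- **Nonabelian minimal normal subgroups of invariably generated groups are simple**, of order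
divisible by both primes. -/
theorem simple_of_invGen [Finite G] {N : Subgroup G} (hN : MinNormal N)
    (hnc : ∃ x ∈ N, ∃ y ∈ N, x * y ≠ y * x) {a b : G} (hab : InvGen a b) {p q : ℕ}
    (hp : p.Prime) (hq : q.Prime) (ha : a ^ p = 1) (hb : b ^ q = 1) :
    IsSimpleGroup N ∧ p ∣ Nat.card N ∧ q ∣ Nat.card N := by
  have hpN := dvd_card hN hnc hab hp hq ha hb
  have hqN := dvd_card hN hnc hab.symm hq hp hb ha
  refine ⟨?_, hpN, hqN⟩
  obtain ⟨S, hS⟩ := exists_MQ hN
  obtain ⟨T, hT⟩ := block_fixed hN hS hnc hab hp hq ha hb hqN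
  obtain ⟨U, hU⟩ := block_fixed hN hS hnc hab.symm hq hp hb ha hpN
  obtain ⟨g, hg⟩ := T.2
  obtain ⟨k, hk⟩ := U.2
  have hM : stab S = ⊤ := by
    apply hab.eq_top (g := g) (k := k)
    · change cj (g⁻¹ * a * g) S = S
      rw [cj_mul, cj_mul, ← hg, hT, hg, cj_inv_cj]
    · change cj (k⁻¹ * b * k) S = S
      rw [cj_mul, cj_mul, ← hk, hU, hk, cj_inv_cj]
  have hSn : S.Normal := normal_of_stab fun g => by
    have : g ∈ stab S := by rw [hM]; exact Subgroup.mem_top g
    exact this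
  have hSN : S = N := by
    rcases hN.2.2 S hSn hS.1.1 with h | h
    · exact absurd h hS.1.2.1
    · exact h
  subst hSN
  have hnt : Nontrivial S := by
    rw [Subgroup.nontrivial_iff_ne_bot]
    exact hN.2.1
  refine ⟨fun K hK => ?_⟩
  have h1 := cls_simple hN hS (K := K.map S.subtype) (by rintro y ⟨z, _, rfl⟩; exact z.2) (by
    intro s hs
    ext y
    rw [mem_cj]
    constructor
    · rintro ⟨z, hz, hzy⟩
      refine ⟨⟨s, hs⟩ * z * ⟨s, hs⟩⁻¹, hK.conj_mem z hz ⟨s, hs⟩, ?_⟩
      change s * (z : G) * s⁻¹ = y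
      have : (z : G) = s⁻¹ * y * s := hzy
      rw [this]; group
    · rintro ⟨z, hz, rfl⟩
      refine ⟨⟨s, hs⟩⁻¹ * z * ⟨s, hs⟩, ?_, rfl⟩
      have := hK.conj_mem z hz ⟨s, hs⟩⁻¹
      rwa [inv_inv] at this)
  rcases h1 with h1 | h1
  · left
    rwa [Subgroup.map_eq_bot_iff_of_injective _ S.subtype_injective] at h1
  · right
    rw [eq_top_iff]
    intro y _
    have h2 : (y : G) ∈ K.map S.subtype := by rw [h1]; exact y.2
    obtain ⟨z, hz, hzy⟩ := h2
    have : z = y := Subtype.ext hzy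
    rw [← this]
    exact hz

end Helper76.IG
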